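import Pool.Agent.Helper80.SU.Base

/-!
Monotonicity of the span relation and the lower bound for the number of sums of a good set.
-/

set_option autoImplicit false

namespace Pool.Agent.Helper80.SU

open Finset

variable {G : Type*} [AddCommGroup G] [DecidableEq G]

theorem sum_shift_le (S T : Finset G) (φ : G → ℕ) (h : ∀ x, x ∉ S → φ x = 0) (a : G) :
    ∑ y ∈ T, φ (y - a) ≤ ∑ x ∈ S, φ x := by
  have h1 : ∑ y ∈ T, φ (y - a) = ∑ x ∈ T.image (fun y => y - a), φ x := by
    rw [Finset.sum_image]
    intro x _ y _ hxy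
    exact sub_left_injective hxy
  rw [h1]
  have h2 : ∑ x ∈ T.image (fun y => y - a), φ x
      = ∑ x ∈ (T.image (fun y => y - a)).filter (fun x => x ∈ S), φ x := by
    rw [Finset.sum_filter]
    refine Finset.sum_congr rfl (fun x _ => ?_)
    by_cases hx : x ∈ S
    · simp [hx]
    · simp [hx, h x hx]
  rw [h2]
  refine Finset.sum_le_sum_of_subset ?_
  intro x hx
  exact (Finset.mem_filter.1 hx).2

theorem ov_shift_le (f : G →₀ ℕ) (T : Finset G) (a b : G) :
    ∑ y ∈ T, min (f (y - a)) (f (y - b)) ≤ ov f (b - a) := by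
  have h := sum_shift_le f.support T (fun x => min (f x) (f (x - (b - a)))) (by
    intro x hx
    rw [Finsupp.notMem_support_iff] at hx
    simp [hx]) a
  refine le_trans (le_of_eq ?_) h
  refine Finset.sum_congr rfl (fun y _ => ?_)
  congr 2
  abel

theorem ov_insert (q : ℕ) (B : Finset G) (b : G) (hb : b ∉ B) (v : G) :
    q * ov (law q B) v ≤ ov (law q (insert b B)) v := by
  set f := law q B with hf
  set g := law q (insert b B) with hg
  have hgy : ∀ y, g y = ∑ j ∈ range q, f (y - j • b) := fun y => law_insert q B b hb y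
  have hsub : ∀ j ∈ range q, f.support.image (fun x => x + j • b) ⊆ g.support := by
    intro j hj y hy
    obtain ⟨x, hx, rfl⟩ := Finset.mem_image.1 hy
    rw [Finsupp.mem_support_iff] at hx ⊢
    rw [hgy]
    intro h0
    have := (Finset.sum_eq_zero_iff.1 h0) j hj
    simp at this
    exact hx this
  calc q * ov f v = ∑ j ∈ range q, ov f v := by rw [Finset.sum_const, card_range, smul_eq_mul]
    _ ≤ ∑ j ∈ range q, ∑ y ∈ g.support, min (f (y - j • b)) (f (y - v - j • b)) := by
        refine Finset.sum_le_sum (fun j hj => ?_)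
        refine le_trans ?_ (Finset.sum_le_sum_of_subset (hsub j hj))
        rw [Finset.sum_image (fun x _ y _ hxy => add_left_injective _ hxy)]
        refine le_of_eq (Finset.sum_congr rfl (fun x _ => ?_))
        have e1 : x + j • b - j • b = x := add_sub_cancel_right _ _
        have e2 : x + j • b - v - j • b = x - v := by
          rw [sub_right_comm, e1]
        rw [e1, e2]
    _ = ∑ y ∈ g.support, ∑ j ∈ range q, min (f (y - j • b)) (f (y - v - j • b)) :=
        Finset.sum_comm
    _ ≤ ∑ y ∈ g.support, min (g y) (g (y - v)) := by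
        refine Finset.sum_le_sum (fun y _ => ?_)
        rw [hgy, hgy]
        exact le_min (Finset.sum_le_sum (fun j _ => min_le_left _ _))
          (Finset.sum_le_sum (fun j _ => min_le_right _ _))

theorem sp_insert {q s : ℕ} {v b : G} {B : Finset G} (h : Sp q s v B) :
    Sp q s v (insert b B) := by
  by_cases hb : b ∈ B
  · rwa [Finset.insert_eq_of_mem hb]
  obtain ⟨j, hj1, hj2, hj⟩ := h
  refine ⟨j, hj1, hj2, ?_⟩
  rw [Finset.card_insert_of_notMem hb, pow_succ]
  calc q ^ B.card * q ≤ (2 ^ s * ov (law q B) (j • v)) * q := Nat.mul_le_mul_right _ hj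
    _ = 2 ^ s * (q * ov (law q B) (j • v)) := by ring
    _ ≤ _ := Nat.mul_le_mul_left _ (ov_insert q B b hb _)

theorem sp_mono {q s : ℕ} (v : G) (B B' : Finset G) (h : B ⊆ B') (hs : Sp q s v B) :
    Sp q s v B' := by
  have key : ∀ S : Finset G, Sp q s v (S ∪ B) := by
    intro S
    induction S using Finset.induction_on with
    | empty => simpa using hs
    | insert a S _ ih => rw [Finset.insert_union]; exact sp_insert ih
  have := key B'
  rwa [Finset.union_eq_left.2 h] at this

/-- The total number of non-majority choices in one step is bounded by the overlaps. -/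
theorem minor_le (f : G →₀ ℕ) (q : ℕ) (z : G) (y : G) (m : ℕ) (hm : m ∈ range q)
    (hmax : ∀ j ∈ range q, f (y - j • z) ≤ f (y - m • z)) :
    ∑ j ∈ (range q).erase m, f (y - j • z)
      ≤ ∑ j ∈ range q, ∑ i ∈ (range q).erase j, min (f (y - j • z)) (f (y - i • z)) := by
  calc ∑ j ∈ (range q).erase m, f (y - j • z)
      ≤ ∑ j ∈ (range q).erase m, ∑ i ∈ (range q).erase j,
          min (f (y - j • z)) (f (y - i • z)) := by
        refine Finset.sum_le_sum (fun j hj => ?_)
        have hj' := Finset.mem_erase.1 hj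
        have hmem : m ∈ (range q).erase j := Finset.mem_erase.2 ⟨hj'.1.symm, hm⟩
        have h1 := Finset.single_le_sum (f := fun i => min (f (y - j • z)) (f (y - i • z)))
          (fun i _ => Nat.zero_le _) hmem
        refine le_trans (le_of_eq ?_) h1
        rw [min_eq_left (hmax j hj'.2)]
    _ ≤ _ := Finset.sum_le_sum_of_subset (Finset.erase_subset _ _)

theorem pair_ov_le (f : G →₀ ℕ) (T : Finset G) (z : G) {q s N : ℕ}
    (h : ∀ j, 1 ≤ j → j < q → 2 ^ s * ov f (j • z) ≤ N) {i j : ℕ} (hi : i < q) (hj : j < q)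
    (hij : i ≠ j) :
    2 ^ s * ∑ y ∈ T, min (f (y - j • z)) (f (y - i • z)) ≤ N := by
  rcases Nat.lt_or_gt_of_ne hij with hlt | hlt
  · have h1 := ov_shift_le f T (i • z) (j • z)
    have h2 : j • z - i • z = (j - i) • z := by
      rw [sub_eq_iff_eq_add, ← add_smul]; congr 1; omega
    rw [h2] at h1
    refine le_trans (Nat.mul_le_mul_left _ ?_) (h (j - i) (by omega) (by omega))
    refine le_trans (le_of_eq ?_) h1
    exact Finset.sum_congr rfl (fun y _ => min_comm _ _)
  · have h1 := ov_shift_le f T (j • z) (i • z)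
    have h2 : i • z - j • z = (i - j) • z := by
      rw [sub_eq_iff_eq_add, ← add_smul]; congr 1; omega
    rw [h2] at h1
    exact le_trans (Nat.mul_le_mul_left _ h1) (h (i - j) (by omega) (by omega))

theorem good_mono {q s : ℕ} {C C' : Finset G} (h : C' ⊆ C) (hC : Good q s C) : Good q s C' :=
  fun Z hZ hne => hC Z (hZ.trans h) hne

/-- Minority coding: `E y μ` is the number of representations of `y` with more than `μ`
non-majority choices. -/
theorem coding (q s : ℕ) (hq : 1 ≤ q) (n : ℕ) : ∀ B : Finset G, B.card = n → Good q s B →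
    ∃ E : G → ℕ → ℕ, (∀ y μ, E y μ ≤ law q B y) ∧
      (∀ y μ, law q B y ≤ E y μ + 2 ^ n * q ^ μ) ∧ (∀ y μ, n ≤ μ → E y μ = 0) ∧
      2 ^ s * ∑ y ∈ (law q B).support, ∑ μ ∈ range n, E y μ ≤ n * q ^ (n + 1) := by
  induction n with
  | zero =>
    intro B hB _
    rw [Finset.card_eq_zero] at hB
    subst hB
    refine ⟨fun _ _ => 0, fun _ _ => Nat.zero_le _, fun y μ => ?_, fun _ _ _ => rfl, by simp⟩
    rw [law_empty]
    have : 1 ≤ q ^ μ := Nat.one_le_pow _ _ hq
    split_ifs <;> omega
  | succ n ih =>
    intro B hBc hB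
    have hBne : B.Nonempty := Finset.card_pos.1 (by omega)
    obtain ⟨z, hzB, hz⟩ := hB B (Finset.Subset.refl _) hBne
    set B₀ := B.erase z with hB₀
    have hzB₀ : z ∉ B₀ := Finset.notMem_erase _ _
    have hBi : insert z B₀ = B := Finset.insert_erase hzB
    have hc₀ : B₀.card = n := by rw [hB₀, Finset.card_erase_of_mem hzB]; omega
    obtain ⟨E₀, h1, h2, h3, h4⟩ := ih B₀ hc₀ (good_mono (Finset.erase_subset _ _) hB)
    set f := law q B₀ with hf
    have hgy : ∀ y, law q B y = ∑ j ∈ range q, f (y - j • z) := by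
      intro y; rw [← hBi]; exact law_insert q B₀ z hzB₀ y
    have hov : ∀ j, 1 ≤ j → j < q → 2 ^ s * ov f (j • z) ≤ q ^ n := by
      intro j hj1 hj2
      by_contra hcon
      push Not at hcon
      exact hz ⟨j, hj1, hj2, by rw [hc₀]; exact hcon.le⟩
    have hmax : ∀ y : G, ∃ m ∈ range q, ∀ j ∈ range q, f (y - j • z) ≤ f (y - m • z) := by
      intro y
      exact Finset.exists_max_image (range q) (fun j => f (y - j • z)) ⟨0, by simp; omega⟩
    choose m hm hmm using hmax
    refine ⟨fun y μ => match μ with
      | 0 => E₀ (y - m y • z) 0 + ∑ j ∈ (range q).erase (m y), f (y - j • z)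
      | (k + 1) => E₀ (y - m y • z) (k + 1) + ∑ j ∈ (range q).erase (m y), E₀ (y - j • z) k,
      ?_, ?_, ?_, ?_⟩
    · intro y μ
      rw [hgy, ← Finset.add_sum_erase _ _ (hm y)]
      cases μ with
      | zero => exact Nat.add_le_add_right (h1 _ _) _
      | succ k => exact Nat.add_le_add (h1 _ _) (Finset.sum_le_sum (fun j _ => h1 _ _))
    · intro y μ
      rw [hgy, ← Finset.add_sum_erase _ _ (hm y)]
      cases μ with
      | zero =>
        have := h2 (y - m y • z) 0
        simp only [pow_zero, mul_one] at this ⊢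
        rw [pow_succ]
        omega
      | succ k =>
        have a1 := h2 (y - m y • z) (k + 1)
        have a2 : ∑ j ∈ (range q).erase (m y), f (y - j • z)
            ≤ ∑ j ∈ (range q).erase (m y), (E₀ (y - j • z) k + 2 ^ n * q ^ k) :=
          Finset.sum_le_sum (fun j _ => h2 _ _)
        rw [Finset.sum_add_distrib, Finset.sum_const, smul_eq_mul] at a2
        have a3 : ((range q).erase (m y)).card * (2 ^ n * q ^ k) ≤ 2 ^ n * q ^ (k + 1) := by
          have : ((range q).erase (m y)).card ≤ q := by
            refine (Finset.card_erase_le).trans ?_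
            rw [card_range]
          calc ((range q).erase (m y)).card * (2 ^ n * q ^ k) ≤ q * (2 ^ n * q ^ k) :=
                Nat.mul_le_mul_right _ this
            _ = 2 ^ n * q ^ (k + 1) := by ring
        have a4 : 2 ^ (n + 1) * q ^ (k + 1) = 2 ^ n * q ^ (k + 1) + 2 ^ n * q ^ (k + 1) := by ring
        simp only
        omega
    · intro y μ hμ
      cases μ with
      | zero => omega
      | succ k =>
        simp only
        rw [h3 _ _ (by omega), Finset.sum_eq_zero (fun j _ => h3 _ _ (by omega)), add_zero]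
    · -- the total number of non-majority choices
      have hinner : ∀ y, ∑ μ ∈ range (n + 1), (match μ with
          | 0 => E₀ (y - m y • z) 0 + ∑ j ∈ (range q).erase (m y), f (y - j • z)
          | (k + 1) => E₀ (y - m y • z) (k + 1) + ∑ j ∈ (range q).erase (m y), E₀ (y - j • z) k)
          = ∑ j ∈ range q, ∑ μ ∈ range n, E₀ (y - j • z) μ
            + ∑ j ∈ (range q).erase (m y), f (y - j • z) := by
        intro y
        rw [Finset.sum_range_succ']
        simp only
        rw [Finset.sum_add_distrib, Finset.sum_comm,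
          ← Finset.add_sum_erase (range q) (fun j => ∑ μ ∈ range n, E₀ (y - j • z) μ) (hm y)]
        have h5 : ∑ k ∈ range n, E₀ (y - m y • z) (k + 1) + E₀ (y - m y • z) 0
            = ∑ μ ∈ range n, E₀ (y - m y • z) μ := by
          rw [← Finset.sum_range_succ', Finset.sum_range_succ, h3 _ _ le_rfl, add_zero]
        omega
      rw [Finset.sum_congr rfl (fun y _ => hinner y), Finset.sum_add_distrib, mul_add]
      have hA : ∑ y ∈ (law q B).support, ∑ j ∈ range q, ∑ μ ∈ range n, E₀ (y - j • z) μ
          ≤ q * ∑ y ∈ f.support, ∑ μ ∈ range n, E₀ y μ := by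
        rw [Finset.sum_comm]
        calc ∑ j ∈ range q, ∑ y ∈ (law q B).support, ∑ μ ∈ range n, E₀ (y - j • z) μ
            ≤ ∑ j ∈ range q, ∑ y ∈ f.support, ∑ μ ∈ range n, E₀ y μ := by
              refine Finset.sum_le_sum (fun j _ => ?_)
              refine sum_shift_le f.support _ (fun x => ∑ μ ∈ range n, E₀ x μ) ?_ _
              intro x hx
              rw [Finsupp.notMem_support_iff] at hx
              exact Finset.sum_eq_zero (fun μ _ => Nat.le_zero.1 (hx ▸ h1 x μ))
          _ = _ := by rw [Finset.sum_const, card_range, smul_eq_mul]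
      have hB' : 2 ^ s * ∑ y ∈ (law q B).support, ∑ j ∈ (range q).erase (m y), f (y - j • z)
          ≤ q ^ (n + 2) := by
        calc 2 ^ s * ∑ y ∈ (law q B).support, ∑ j ∈ (range q).erase (m y), f (y - j • z)
            ≤ 2 ^ s * ∑ y ∈ (law q B).support, ∑ j ∈ range q, ∑ i ∈ (range q).erase j,
                min (f (y - j • z)) (f (y - i • z)) :=
              Nat.mul_le_mul_left _ (Finset.sum_le_sum
                (fun y _ => minor_le f q z y (m y) (hm y) (hmm y)))
          _ = ∑ j ∈ range q, ∑ i ∈ (range q).erase j, 2 ^ s * ∑ y ∈ (law q B).support,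
                min (f (y - j • z)) (f (y - i • z)) := by
              rw [Finset.sum_comm, Finset.mul_sum]
              refine Finset.sum_congr rfl (fun j _ => ?_)
              rw [Finset.sum_comm, Finset.mul_sum]
          _ ≤ ∑ j ∈ range q, ∑ i ∈ (range q).erase j, q ^ n := by
              refine Finset.sum_le_sum (fun j hj => Finset.sum_le_sum (fun i hi => ?_))
              have hi' := Finset.mem_erase.1 hi
              exact pair_ov_le f _ z hov (Finset.mem_range.1 hi'.2) (Finset.mem_range.1 hj) hi'.1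
          _ ≤ ∑ j ∈ range q, q * q ^ n := by
              refine Finset.sum_le_sum (fun j hj => ?_)
              rw [Finset.sum_const, smul_eq_mul]
              refine Nat.mul_le_mul_right _ ((Finset.card_erase_le).trans ?_)
              rw [card_range]
          _ = q ^ (n + 2) := by
              rw [Finset.sum_const, card_range, smul_eq_mul]; ring
      calc _ ≤ 2 ^ s * (q * ∑ y ∈ f.support, ∑ μ ∈ range n, E₀ y μ) + q ^ (n + 2) :=
            Nat.add_le_add (Nat.mul_le_mul_left _ hA) hB'
        _ = q * (2 ^ s * ∑ y ∈ f.support, ∑ μ ∈ range n, E₀ y μ) + q ^ (n + 2) := by ring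
        _ ≤ q * (n * q ^ (n + 1)) + q ^ (n + 2) :=
            Nat.add_le_add_right (Nat.mul_le_mul_left _ h4) _
        _ = (n + 1) * q ^ (n + 1 + 1) := by ring

/-- The total mass of the law. -/
theorem law_mass (q : ℕ) (B : Finset G) : ∑ y ∈ (law q B).support, law q B y = q ^ B.card := by
  induction B using Finset.induction_on with
  | empty =>
    have : (law q (∅ : Finset G)).support = {0} := by
      ext y
      rw [Finsupp.mem_support_iff, law_empty]
      by_cases h : y = 0 <;> simp [h]
    rw [this]
    simp [law_empty]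
  | insert b B hb ih =>
    have hgy : ∀ y, law q (insert b B) y = ∑ j ∈ range q, law q B (y - j • b) :=
      fun y => law_insert q B b hb y
    rw [Finset.sum_congr rfl (fun y _ => hgy y), Finset.sum_comm,
      Finset.card_insert_of_notMem hb, pow_succ, mul_comm (q ^ B.card) q]
    have : ∀ j ∈ range q, ∑ y ∈ (law q (insert b B)).support, law q B (y - j • b)
        = q ^ B.card := by
      intro j hj
      rw [← ih]
      have hsub : (law q B).support.image (fun x => x + j • b)
          ⊆ (law q (insert b B)).support := by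
        intro y hy
        obtain ⟨x, hx, rfl⟩ := Finset.mem_image.1 hy
        rw [Finsupp.mem_support_iff] at hx ⊢
        rw [hgy]
        intro h0
        have := (Finset.sum_eq_zero_iff.1 h0) j hj
        simp at this
        exact hx this
      apply le_antisymm
      · exact sum_shift_le _ _ (fun x => law q B x)
          (fun x hx => Finsupp.notMem_support_iff.1 hx) _
      · refine le_trans (le_of_eq ?_) (Finset.sum_le_sum_of_subset hsub)
        rw [Finset.sum_image (fun x _ y _ hxy => add_left_injective _ hxy)]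
        exact Finset.sum_congr rfl (fun x _ => by rw [add_sub_cancel_right])
    rw [Finset.sum_congr rfl this, Finset.sum_const, card_range, smul_eq_mul]

/-- A good set has many sums. -/
theorem support_bound {p e s : ℕ} (he : 1 ≤ e) (hs : s = p + e + 1) (B : Finset G)
    (hB : Good (2 ^ p) s B) (hne : B.Nonempty) :
    (2 ^ p) ^ B.card
      ≤ 2 ^ (B.card + 1) * (2 ^ p) ^ (B.card / 2 ^ e) * (law (2 ^ p) B).support.card := by
  obtain ⟨E, h1, h2, h3, h4⟩ := coding (2 ^ p) s Nat.one_le_two_pow B.card B rfl hB
  set n := B.card with hn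
  set q := 2 ^ p with hq
  have hn1 : 1 ≤ n := Finset.card_pos.2 hne
  have he2 : 2 ≤ 2 ^ e := by
    calc 2 = 2 ^ 1 := rfl
      _ ≤ 2 ^ e := Nat.pow_le_pow_right (by norm_num) he
  set μ := n / 2 ^ e with hμ
  have hμn : μ + 1 ≤ n := by
    have : n / 2 ^ e ≤ n / 2 := Nat.div_le_div_left he2 (by norm_num)
    omega
  have hμ2 : n < 2 ^ e * (μ + 1) := by
    rw [hμ]; exact Nat.lt_mul_div_succ n (by positivity)
  -- pigeonhole on the level
  obtain ⟨ν, hν, hνA⟩ : ∃ ν ∈ range (μ + 1),
      (μ + 1) * ∑ y ∈ (law q B).support, E y ν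
        ≤ ∑ y ∈ (law q B).support, ∑ κ ∈ range n, E y κ := by
    by_contra hcon
    push Not at hcon
    have hlt : ∑ ν ∈ range (μ + 1), (∑ y ∈ (law q B).support, ∑ κ ∈ range n, E y κ)
        < ∑ ν ∈ range (μ + 1), (μ + 1) * ∑ y ∈ (law q B).support, E y ν :=
      Finset.sum_lt_sum_of_nonempty ⟨0, by simp⟩ hcon
    rw [Finset.sum_const, card_range, smul_eq_mul, ← Finset.mul_sum] at hlt
    have h5 : ∑ ν ∈ range (μ + 1), ∑ y ∈ (law q B).support, E y ν
        ≤ ∑ y ∈ (law q B).support, ∑ κ ∈ range n, E y κ := by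
      rw [Finset.sum_comm]
      exact Finset.sum_le_sum (fun y _ => Finset.sum_le_sum_of_subset (by
        intro x hx; rw [Finset.mem_range] at hx ⊢; omega))
    exact absurd hlt (not_lt.2 (Nat.mul_le_mul_left _ h5))
  set A := ∑ y ∈ (law q B).support, E y ν with hA
  set D := ∑ y ∈ (law q B).support, ∑ κ ∈ range n, E y κ with hD
  have hqn : 0 < q ^ n := by positivity
  -- `2 A ≤ q ^ n`
  have hDe : 2 ^ (e + 1) * D ≤ n * q ^ n := by
    have h6 : 2 ^ s * D = q * (2 ^ (e + 1) * D) := by
      rw [hs, hq]; ring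
    have h7 : n * q ^ (n + 1) = q * (n * q ^ n) := by ring
    rw [h6, h7] at h4
    exact Nat.le_of_mul_le_mul_left h4 (by positivity)
  have h2A : 2 * A ≤ q ^ n := by
    have h8 : 2 * n * A ≤ n * q ^ n := by
      calc 2 * n * A ≤ 2 * (2 ^ e * (μ + 1)) * A :=
            Nat.mul_le_mul_right _ (Nat.mul_le_mul_left _ hμ2.le)
        _ = 2 ^ (e + 1) * ((μ + 1) * A) := by ring
        _ ≤ 2 ^ (e + 1) * D := Nat.mul_le_mul_left _ hνA
        _ ≤ n * q ^ n := hDe
    have h9 : n * (2 * A) ≤ n * q ^ n := by linarith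
    exact Nat.le_of_mul_le_mul_left h9 (by omega)
  have hmass := law_mass q B
  have hup : q ^ n ≤ A + (law q B).support.card * (2 ^ n * q ^ ν) := by
    rw [← hn] at hmass
    rw [← hmass, hA]
    calc ∑ y ∈ (law q B).support, law q B y
        ≤ ∑ y ∈ (law q B).support, (E y ν + 2 ^ n * q ^ ν) := Finset.sum_le_sum (fun y _ => h2 y ν)
      _ = _ := by rw [Finset.sum_add_distrib, Finset.sum_const, smul_eq_mul]
  have hνμ : q ^ ν ≤ q ^ μ := Nat.pow_le_pow_right (by positivity) (by
    have := Finset.mem_range.1 hν; omega)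
  have h10 : (law q B).support.card * (2 ^ n * q ^ ν)
      ≤ (law q B).support.card * (2 ^ n * q ^ μ) :=
    Nat.mul_le_mul_left _ (Nat.mul_le_mul_left _ hνμ)
  calc q ^ n ≤ 2 * ((law q B).support.card * (2 ^ n * q ^ μ)) := by omega
    _ = _ := by ring

theorem mem_support_law {q : ℕ} (B : Finset G) : ∀ y ∈ (law q B).support,
    ∃ f : G → ℕ, (∀ b ∈ B, f b < q) ∧ ∑ b ∈ B, f b • b = y := by
  induction B using Finset.induction_on with
  | empty =>
    intro y hy
    rw [Finsupp.mem_support_iff, law_empty] at hy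
    refine ⟨fun _ => 0, by simp, ?_⟩
    by_contra h
    apply hy
    rw [if_neg]
    rintro rfl
    simp at h
  | insert b B hb ih =>
    intro y hy
    rw [Finsupp.mem_support_iff, law_insert q B b hb] at hy
    obtain ⟨j, hj, hj0⟩ := Finset.exists_ne_zero_of_sum_ne_zero hy
    obtain ⟨f, hf, hfs⟩ := ih (y - j • b) (Finsupp.mem_support_iff.2 hj0)
    refine ⟨Function.update f b j, ?_, ?_⟩
    · intro c hc
      rcases Finset.mem_insert.1 hc with rfl | hc
      · rw [Function.update_self]; exact Finset.mem_range.1 hj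
      · have : c ≠ b := fun h => hb (h ▸ hc)
        rw [Function.update_of_ne this]; exact hf c hc
    · rw [Finset.sum_insert hb, Function.update_self]
      have : ∑ x ∈ B, (Function.update f b j) x • x = ∑ x ∈ B, f x • x := by
        refine Finset.sum_congr rfl (fun x hx => ?_)
        have : x ≠ b := fun h => hb (h ▸ hx)
        rw [Function.update_of_ne this]
      rw [this, hfs]
      abel

end Pool.Agent.Helper80.SU
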