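import Mathlib

/-!
Basic definitions for the theorem: a set all of whose finite subsets contain proportionally
large dissociated subsets is a finite union of sets with proportion close to one.
-/

set_option autoImplicit false

namespace Pool.Agent.Helper80.SU

open Finset

variable {G : Type*} [AddCommGroup G] [DecidableEq G]

/-- A finite set with pairwise distinct subset sums. -/
def Diss (D : Finset G) : Prop :=
  ∀ X Y : Finset G, X ⊆ D → Y ⊆ D → ∑ x ∈ X, x = ∑ y ∈ Y, y → X = Y

/-- The counting function `y ↦ #{a : B → {0, ..., q-1} | ∑ a_b b = y}`: the coefficients of the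
product over `b ∈ B` of the elements `∑_{j < q} [j b]` of the group algebra. -/
noncomputable def law (q : ℕ) (B : Finset G) : G →₀ ℕ :=
  (∏ b ∈ B, ∑ j ∈ range q, (AddMonoidAlgebra.single (j • b) 1 : AddMonoidAlgebra ℕ G)).coeff

/-- The overlap of a finitely supported counting function with its translate by `v`. -/
noncomputable def ov (f : G →₀ ℕ) (v : G) : ℕ :=
  ∑ y ∈ f.support, min (f y) (f (y - v))

/-- `v` is spanned by `B` (parameters `q`, `s`): for some `1 ≤ j < q` the overlap of the law of
the sums `∑ a_b b`, `0 ≤ a_b < q`, with its translate by `j v` is at least `2 ^ (-s)`. -/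
def Sp (q s : ℕ) (v : G) (B : Finset G) : Prop :=
  ∃ j, 1 ≤ j ∧ j < q ∧ q ^ B.card ≤ 2 ^ s * ov (law q B) (j • v)

/-- A good set: every nonempty subset has an element not spanned by the others. -/
def Good (q s : ℕ) (C : Finset G) : Prop :=
  ∀ Z : Finset G, Z ⊆ C → Z.Nonempty → ∃ z ∈ Z, ¬ Sp q s z (Z.erase z)

theorem law_empty (q : ℕ) (y : G) : law q (∅ : Finset G) y = if y = 0 then 1 else 0 := by
  simp only [law, Finset.prod_empty, AddMonoidAlgebra.one_def, AddMonoidAlgebra.coeff_single,
    Finsupp.single_apply]
  by_cases h : y = 0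
  · simp [h]
  · simp [h, Ne.symm h]

theorem law_insert (q : ℕ) (B : Finset G) (b : G) (hb : b ∉ B) (y : G) :
    law q (insert b B) y = ∑ j ∈ range q, law q B (y - j • b) := by
  simp only [law, Finset.prod_insert hb, Finset.sum_mul, AddMonoidAlgebra.coeff_sum,
    Finsupp.finset_sum_apply, AddMonoidAlgebra.coeff_single_mul_apply, one_mul]
  refine Finset.sum_congr rfl (fun j _ => ?_)
  congr 1
  abel

end Pool.Agent.Helper80.SU
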