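import Pool.Agent.Helper80.SU.Over
import Pool.Agent.S12.SH

/-!
# Good sets contain large dissociated sets
-/

namespace Pool.Agent.Helper80.SU

open Finset

variable {G : Type*} [AddCommGroup G] [DecidableEq G]

/-- A good set contains a dissociated subset with at least `(1 - 1/d)|B|` elements. -/
theorem good_large {d p e s : ℕ} (hd : 1 ≤ d) (hp : p = 4 * d + 5) (he : 2 * d ≤ 2 ^ e)
    (hs : s = p + e + 1) (B : Finset G) (hB : Good (2 ^ p) s B) :
    ∃ D, D ⊆ B ∧ Diss D ∧ (d - 1) * B.card ≤ d * D.card := by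
  rcases B.eq_empty_or_nonempty with rfl | hne
  · exact ⟨∅, by simp, by
      intro X Y hX hY _
      rw [Finset.subset_empty.1 hX, Finset.subset_empty.1 hY], by simp⟩
  by_contra hcon
  push Not at hcon
  have he1 : 1 ≤ e := by
    rcases Nat.eq_zero_or_pos e with rfl | h
    · simp at he; omega
    · exact h
  have hsup := support_bound he1 hs B hB hne
  set n := B.card with hn
  set N := (law (2 ^ p) B).support.card with hN
  have hn1 : 1 ≤ n := Finset.card_pos.2 hne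
  have hq1 : 1 < 2 ^ p := Nat.one_lt_two_pow (by omega)
  obtain ⟨𝒯, h𝒯, hle⟩ := S12.card_sums_le (2 ^ p - 1) (by omega) B (law (2 ^ p) B).support (by
    intro y hy
    obtain ⟨f, hf, hfy⟩ := mem_support_law B y hy
    refine ⟨fun b => if b ∈ B then f b else 0, fun b => ?_, ?_⟩
    · show (if b ∈ B then f b else 0) ≤ _
      split_ifs with h
      · have := hf b h; omega
      · omega
    · rw [← hfy]
      exact Finset.sum_congr rfl (fun b hb => by simp only [if_pos hb]))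
  -- the largest dissociated subset
  have hM : ∀ T ∈ 𝒯, d * T.card < (d - 1) * n := by
    intro T hT
    obtain ⟨h1, h2⟩ := h𝒯 T hT
    exact hcon T h1 (fun X Y hX hY h => h2 X Y hX hY h)
  have hNpos : 0 < N := by
    rcases Nat.eq_zero_or_pos N with h | h
    · rw [h, mul_zero] at hsup
      have : 0 < (2 ^ p) ^ n := by positivity
      omega
    · exact h
  have h𝒯ne : 𝒯.Nonempty := by
    rw [Finset.nonempty_iff_ne_empty]
    intro h0
    rw [h0, Finset.sum_empty] at hle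
    exact absurd hNpos (Nat.not_lt.2 hle)
  obtain ⟨T₀, hT₀, hmax⟩ := Finset.exists_max_image 𝒯 (fun T => T.card) h𝒯ne
  set M := T₀.card with hMdef
  have hMlt : d * M < (d - 1) * n := hM T₀ hT₀
  have h𝒯card : 𝒯.card ≤ 2 ^ n := by
    rw [hn, ← Finset.card_powerset]
    exact Finset.card_le_card (fun T hT => Finset.mem_powerset.2 (h𝒯 T hT).1)
  have hNle : N ≤ 2 ^ n * (2 ^ p) ^ M := by
    calc N ≤ ∑ T ∈ 𝒯, (2 ^ p - 1) ^ T.card := hle
      _ ≤ ∑ T ∈ 𝒯, (2 ^ p) ^ M := Finset.sum_le_sum (fun T hT =>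
          (Nat.pow_le_pow_left (Nat.sub_le _ _) _).trans
            (Nat.pow_le_pow_right (by omega) (hmax T hT)))
      _ = 𝒯.card * (2 ^ p) ^ M := by rw [Finset.sum_const, smul_eq_mul]
      _ ≤ _ := Nat.mul_le_mul_right _ h𝒯card
  have hfin : (2 ^ p) ^ n ≤ 2 ^ (n + 1) * (2 ^ p) ^ (n / 2 ^ e) * (2 ^ n * (2 ^ p) ^ M) :=
    hsup.trans (Nat.mul_le_mul_left _ hNle)
  have hexp : p * n ≤ (n + 1) + p * (n / 2 ^ e) + (n + p * M) := by
    have h1 : 2 ^ (n + 1) * (2 ^ p) ^ (n / 2 ^ e) * (2 ^ n * (2 ^ p) ^ M)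
        = 2 ^ ((n + 1) + p * (n / 2 ^ e) + (n + p * M)) := by
      rw [← pow_mul, ← pow_mul, ← pow_add, ← pow_add, ← pow_add]
    rw [h1, ← pow_mul] at hfin
    exact (Nat.pow_le_pow_iff_right (by norm_num)).1 hfin
  set μ := n / 2 ^ e with hμ
  have hμ2 : 2 * d * μ ≤ n := by
    calc 2 * d * μ ≤ 2 ^ e * μ := Nat.mul_le_mul_right _ he
      _ ≤ n := Nat.mul_div_le n (2 ^ e)
  obtain ⟨c, rfl⟩ : ∃ c, d = c + 1 := ⟨d - 1, by omega⟩
  simp only [Nat.add_sub_cancel] at hMlt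
  have h2 : (c + 1) * M + 1 + n ≤ (c + 1) * n := by nlinarith
  have h3 : 2 * (c + 1) * (p * n)
      ≤ 2 * (c + 1) * ((n + 1) + p * μ + (n + p * M)) := Nat.mul_le_mul_left _ hexp
  have h4 : 2 * p * ((c + 1) * M + 1 + n) ≤ 2 * p * ((c + 1) * n) := Nat.mul_le_mul_left _ h2
  have h5 : p * (2 * (c + 1) * μ) ≤ p * n := Nat.mul_le_mul_left _ hμ2
  have h6 : 2 * p + p * n ≤ 2 * (c + 1) * (2 * n + 1) := by nlinarith
  rw [hp] at h6
  nlinarith

end Pool.Agent.Helper80.SU
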