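import Mathlib

/-!
An abstract partition theorem for monotone span relations with a size bound, proved by a
lexicographic local search.
-/

set_option autoImplicit false

namespace Pool.Agent.Helper80.SU

open Finset

section Core

variable {α : Type*} [DecidableEq α] (Sp : α → Finset α → Prop)

open Classical in
/-- The largest subset `Z` of `D` all of whose elements are spanned by the rest of `Z` and `X`. -/
noncomputable def core (D X : Finset α) : Finset α :=
  D.filter (fun x => ∃ Z : Finset α, Z ⊆ D ∧ x ∈ Z ∧ ∀ z ∈ Z, Sp z (Z.erase z ∪ X))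

variable {Sp}

theorem core_subset (D X : Finset α) : core Sp D X ⊆ D := by
  classical
  exact Finset.filter_subset _ _

theorem core_max {D X Z : Finset α} (hZ : Z ⊆ D) (h : ∀ z ∈ Z, Sp z (Z.erase z ∪ X)) :
    Z ⊆ core Sp D X := by
  classical
  intro z hz
  exact Finset.mem_filter.2 ⟨hZ hz, Z, hZ, hz, h⟩

theorem core_spec (hm : ∀ v B B', B ⊆ B' → Sp v B → Sp v B') {D X : Finset α} {z : α}
    (hz : z ∈ core Sp D X) : Sp z ((core Sp D X).erase z ∪ X) := by
  classical
  obtain ⟨_, Z, hZD, hzZ, h⟩ := Finset.mem_filter.1 hz
  have hZc : Z ⊆ core Sp D X := core_max hZD h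
  refine hm _ _ _ ?_ (h z hzZ)
  exact Finset.union_subset_union (Finset.erase_subset_erase _ hZc) (Finset.Subset.refl _)

theorem core_mono (hm : ∀ v B B', B ⊆ B' → Sp v B → Sp v B') {D D' X : Finset α}
    (h : D ⊆ D') : core Sp D X ⊆ core Sp D' X :=
  core_max ((core_subset D X).trans h) (fun _ hz => core_spec hm hz)

/-- Adding an element outside the new core does not change the core. -/
theorem core_insert (hm : ∀ v B B', B ⊆ B' → Sp v B → Sp v B') {D X : Finset α} {u : α}
    (h : u ∉ core Sp (insert u D) X) : core Sp (insert u D) X = core Sp D X := by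
  apply Finset.Subset.antisymm
  · refine core_max ?_ (fun _ hz => core_spec hm hz)
    intro z hz
    have := core_subset _ _ hz
    rcases Finset.mem_insert.1 this with h1 | h1
    · subst h1; exact absurd hz h
    · exact h1
  · exact core_mono hm (Finset.subset_insert _ _)

/-- Removing an element outside the core does not change the core. -/
theorem core_erase (hm : ∀ v B B', B ⊆ B' → Sp v B → Sp v B') {D X : Finset α} {u : α}
    (h : u ∉ core Sp D X) : core Sp (D.erase u) X = core Sp D X := by
  apply Finset.Subset.antisymm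
  · exact core_mono hm (Finset.erase_subset _ _)
  · refine core_max ?_ (fun _ hz => core_spec hm hz)
    intro z hz
    refine Finset.mem_erase.2 ⟨?_, core_subset _ _ hz⟩
    rintro rfl
    exact h hz

/-- The absorption step: the elements of a spanned configuration outside `T` lie in the core
relative to `T`. -/
theorem absorb (hm : ∀ v B B', B ⊆ B' → Sp v B → Sp v B') {Q X C T : Finset α} {u : α}
    (hX : X ⊆ T) (hu : u ∈ T) (hQ : ∀ z ∈ Q, Sp z (Q.erase z ∪ X)) (hC : Q.erase u ⊆ C) :
    Q.erase u ⊆ C ∩ (T ∪ core Sp (C \ T) T) := by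
  have key : Q.erase u \ T ⊆ core Sp (C \ T) T := by
    refine core_max (Finset.sdiff_subset_sdiff hC (Finset.Subset.refl _)) ?_
    intro z hz
    have hz1 := Finset.mem_sdiff.1 hz
    have hz2 := Finset.mem_erase.1 hz1.1
    refine hm _ _ _ ?_ (hQ z hz2.2)
    intro y hy
    by_cases hyT : y ∈ T
    · exact Finset.mem_union_right _ hyT
    · apply Finset.mem_union_left
      rcases Finset.mem_union.1 hy with h1 | h1
      · have h2 := Finset.mem_erase.1 h1
        refine Finset.mem_erase.2 ⟨h2.1, Finset.mem_sdiff.2 ⟨Finset.mem_erase.2 ⟨?_, h2.2⟩, hyT⟩⟩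
        rintro rfl
        exact hyT hu
      · exact absurd (hX h1) hyT
  intro y hy
  refine Finset.mem_inter.2 ⟨hC hy, ?_⟩
  by_cases hyT : y ∈ T
  · exact Finset.mem_union_left _ hyT
  · exact Finset.mem_union_right _ (key (Finset.mem_sdiff.2 ⟨hy, hyT⟩))

end Core

section Layers

variable {α : Type*} [DecidableEq α] (Sp : α → Finset α → Prop)

/-- The next layer: the union of the cores of the classes relative to `T`. -/
noncomputable def nxt {K : ℕ} (C : Fin K → Finset α) (T : Finset α) : Finset α :=
  Finset.univ.biUnion (fun j => core Sp (C j \ T) T)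

/-- The union of the layers `0, ..., i`. -/
noncomputable def UU {K : ℕ} (C : Fin K → Finset α) (v : α) : ℕ → Finset α
  | 0 => {v}
  | (i + 1) => UU C v i ∪ nxt Sp C (UU C v i)

/-- The layer `i`. -/
noncomputable def Lay {K : ℕ} (C : Fin K → Finset α) (v : α) : ℕ → Finset α
  | 0 => {v}
  | (i + 1) => nxt Sp C (UU Sp C v i)

/-- The layers before `i - 1` included. -/
noncomputable def Prev {K : ℕ} (C : Fin K → Finset α) (v : α) : ℕ → Finset α
  | 0 => ∅
  | (i + 1) => UU Sp C v i

variable {Sp}

theorem nxt_disj {K : ℕ} (C : Fin K → Finset α) (T : Finset α) : Disjoint (nxt Sp C T) T := by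
  rw [Finset.disjoint_left]
  intro x hx hT
  obtain ⟨j, _, hj⟩ := Finset.mem_biUnion.1 hx
  exact (Finset.mem_sdiff.1 (core_subset _ _ hj)).2 hT

theorem nxt_sub {K : ℕ} (C : Fin K → Finset α) (T : Finset α) {V : Finset α}
    (h : ∀ j, C j ⊆ V) : nxt Sp C T ⊆ V := by
  intro x hx
  obtain ⟨j, _, hj⟩ := Finset.mem_biUnion.1 hx
  exact h j (Finset.mem_sdiff.1 (core_subset _ _ hj)).1

theorem core_sub_nxt {K : ℕ} (C : Fin K → Finset α) (T : Finset α) (j : Fin K) :
    core Sp (C j \ T) T ⊆ nxt Sp C T :=
  Finset.subset_biUnion_of_mem (fun j => core Sp (C j \ T) T) (Finset.mem_univ j)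

theorem UU_mono {K : ℕ} (C : Fin K → Finset α) (v : α) {i j : ℕ} (h : i ≤ j) :
    UU Sp C v i ⊆ UU Sp C v j := by
  induction h with
  | refl => exact Finset.Subset.refl _
  | step _ ih => exact ih.trans Finset.subset_union_left

theorem UU_sub {K : ℕ} (C : Fin K → Finset α) (v : α) {V : Finset α} (h : ∀ j, C j ⊆ V) (i : ℕ) :
    UU Sp C v i ⊆ insert v V := by
  induction i with
  | zero => intro x hx; rw [UU, Finset.mem_singleton] at hx; subst hx; exact Finset.mem_insert_self _ _
  | succ i ih =>
    exact Finset.union_subset ih ((nxt_sub C _ h).trans (Finset.subset_insert _ _))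

theorem Lay_sub_UU {K : ℕ} (C : Fin K → Finset α) (v : α) (i : ℕ) :
    Lay Sp C v i ⊆ UU Sp C v i := by
  cases i with
  | zero => exact Finset.Subset.refl _
  | succ i => exact Finset.subset_union_right

theorem Lay_disj_Prev {K : ℕ} (C : Fin K → Finset α) (v : α) (i : ℕ) :
    Disjoint (Lay Sp C v i) (Prev Sp C v i) := by
  cases i with
  | zero => exact Finset.disjoint_empty_right _
  | succ i => exact nxt_disj C _

theorem card_UU {K : ℕ} (C : Fin K → Finset α) (v : α) (i : ℕ) :
    (UU Sp C v i).card = (Prev Sp C v i).card + (Lay Sp C v i).card := by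
  cases i with
  | zero => simp [UU, Prev, Lay]
  | succ i =>
    rw [UU, Prev, Lay, Finset.card_union_of_disjoint (nxt_disj C _).symm]

/-- Layer sizes do not change when an irrelevant element is moved. -/
theorem nxt_congr {K : ℕ} {C C' : Fin K → Finset α} {T : Finset α}
    (h : ∀ k, core Sp (C' k \ T) T = core Sp (C k \ T) T) : nxt Sp C' T = nxt Sp C T := by
  unfold nxt
  exact Finset.biUnion_congr rfl (fun k _ => h k)

theorem core_insert_sdiff (hm : ∀ v B B', B ⊆ B' → Sp v B → Sp v B') {D T : Finset α} {u : α}
    (hT : u ∉ T) (h : u ∉ core Sp ((insert u D) \ T) T) :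
    core Sp ((insert u D) \ T) T = core Sp (D \ T) T := by
  rw [Finset.insert_sdiff_of_notMem _ hT] at h ⊢
  exact core_insert hm h

theorem erase_sdiff' (D T : Finset α) (u : α) : (D.erase u) \ T = (D \ T).erase u := by
  ext x
  simp only [Finset.mem_sdiff, Finset.mem_erase]
  tauto

/-- The classes of a colouring. -/
def cls {K : ℕ} (V : Finset α) (f : α → Fin K) (j : Fin K) : Finset α := V.filter (fun x => f x = j)

theorem cls_update_self {K : ℕ} {V : Finset α} {f : α → Fin K} {u : α} {j : Fin K} (hu : u ∈ V) :
    cls V (Function.update f u j) j = insert u (cls V f j) := by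
  ext x
  simp only [cls, Finset.mem_filter, Finset.mem_insert]
  by_cases hx : x = u
  · subst hx; simp [hu]
  · simp [Function.update_of_ne hx, hx]

theorem cls_update_old {K : ℕ} {V : Finset α} {f : α → Fin K} {u : α} {j j1 : Fin K}
    (hj : j ≠ j1) : cls V (Function.update f u j) j1 = (cls V f j1).erase u := by
  ext x
  simp only [cls, Finset.mem_filter, Finset.mem_erase]
  by_cases hx : x = u
  · subst hx; simp [hj]
  · simp [Function.update_of_ne hx, hx]

theorem cls_update_other {K : ℕ} {V : Finset α} {f : α → Fin K} {u : α} {j k : Fin K}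
    (hj : j ≠ k) (hk : f u ≠ k) : cls V (Function.update f u j) k = cls V f k := by
  rw [cls_update_old hj]
  refine Finset.erase_eq_of_notMem ?_
  simp [cls, hk]

/-- In a colouring with lexicographically minimal layer sizes every element of every layer is
spanned by every other class together with the earlier layers. -/
theorem blocked (hm : ∀ v B B', B ⊆ B' → Sp v B → Sp v B') {K n : ℕ} (V : Finset α) (v : α)
    (f : α → Fin K) (hgood : ∀ j, core Sp (cls V f j) ∅ = ∅)
    (hno : ∀ j, core Sp (insert v (cls V f j)) ∅ ≠ ∅)
    (hmin : ∀ g : α → Fin K, (∀ j, core Sp (cls V g j) ∅ = ∅) →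
      ∀ i, i < n → (∀ k, k < i → (nxt Sp (cls V g) (UU Sp (cls V g) v k)).card
        = (nxt Sp (cls V f) (UU Sp (cls V f) v k)).card) →
      (nxt Sp (cls V f) (UU Sp (cls V f) v i)).card
        ≤ (nxt Sp (cls V g) (UU Sp (cls V g) v i)).card) :
    ∀ i, i ≤ n → ∀ u ∈ Lay Sp (cls V f) v i, ∀ j, u ∉ cls V f j →
      Sp u ((cls V f j ∩ UU Sp (cls V f) v (i + 1)) ∪ Prev Sp (cls V f) v i) := by
  intro i hi u hu j huj
  -- it suffices to find a spanned configuration
  have suff : ∀ (Q X : Finset α), u ∈ Q → X ⊆ Prev Sp (cls V f) v i →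
      Q ⊆ insert u (cls V f j) → (∀ z ∈ Q, Sp z (Q.erase z ∪ X)) →
      Sp u ((cls V f j ∩ UU Sp (cls V f) v (i + 1)) ∪ Prev Sp (cls V f) v i) := by
    intro Q X huQ hX hQ hsp
    have hQe : Q.erase u ⊆ cls V f j := by
      intro x hx
      rcases Finset.mem_insert.1 (hQ (Finset.mem_of_mem_erase hx)) with h1 | h1
      · exact absurd h1 (Finset.ne_of_mem_erase hx)
      · exact h1
    have hXU : X ⊆ UU Sp (cls V f) v i := by
      refine hX.trans ?_
      cases i with
      | zero => exact Finset.empty_subset _
      | succ i => exact UU_mono _ _ (Nat.le_succ i)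
    have huU : u ∈ UU Sp (cls V f) v i := Lay_sub_UU _ _ _ hu
    have h1 := absorb hm hXU huU hsp hQe
    refine hm _ _ _ ?_ (hsp u huQ)
    refine Finset.union_subset_union (h1.trans ?_) hX
    refine Finset.inter_subset_inter (Finset.Subset.refl _) ?_
    exact Finset.union_subset_union (Finset.Subset.refl _) (core_sub_nxt _ _ j)
  -- a nonempty core of the class with u added contains u
  have hcoreu : core Sp (insert u (cls V f j)) ∅ ≠ ∅ → u ∈ core Sp (insert u (cls V f j)) ∅ := by
    intro hne
    by_contra hnot
    rw [core_insert hm hnot] at hne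
    exact hne (hgood j)
  by_cases hA : core Sp (insert u (cls V f j)) ∅ = ∅
  swap
  · refine suff (core Sp (insert u (cls V f j)) ∅) ∅ (hcoreu hA) (Finset.empty_subset _)
      (core_subset _ _) (fun z hz => core_spec hm hz)
  cases i with
  | zero =>
    rw [Lay, Finset.mem_singleton] at hu
    subst hu
    exact absurd hA (hno j)
  | succ i =>
    by_cases hB : ∀ k, k ≤ i → u ∉ core Sp ((insert u (cls V f j)) \ UU Sp (cls V f) v k)
        (UU Sp (cls V f) v k)
    swap
    · push Not at hB
      obtain ⟨k, hk, huk⟩ := hB
      refine suff _ _ huk ?_ ((core_subset _ _).trans Finset.sdiff_subset)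
        (fun z hz => core_spec hm hz)
      exact UU_mono _ _ hk
    exfalso
    -- u lies in the class j1
    have hu' : u ∈ nxt Sp (cls V f) (UU Sp (cls V f) v i) := hu
    obtain ⟨j1, _, hj1⟩ := Finset.mem_biUnion.1 hu'
    have hu1 : u ∈ cls V f j1 := (Finset.mem_sdiff.1 (core_subset _ _ hj1)).1
    have huV : u ∈ V := (Finset.mem_filter.1 hu1).1
    have hfu : f u = j1 := (Finset.mem_filter.1 hu1).2
    have hjj : j ≠ j1 := by rintro rfl; exact huj hu1
    have huUi : u ∉ UU Sp (cls V f) v i := by
      intro h
      exact (Finset.disjoint_left.1 (nxt_disj (Sp := Sp) (cls V f) _)) hu' h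
    have huUk : ∀ k, k ≤ i → u ∉ UU Sp (cls V f) v k := fun k hk h => huUi (UU_mono _ _ hk h)
    set g : α → Fin K := Function.update f u j with hg
    have hgj : cls V g j = insert u (cls V f j) := cls_update_self huV
    have hgj1 : cls V g j1 = (cls V f j1).erase u := cls_update_old hjj
    have hgk : ∀ k, k ≠ j → k ≠ j1 → cls V g k = cls V f k := by
      intro k h1 h2
      exact cls_update_other (Ne.symm h1) (by rw [hfu]; exact Ne.symm h2)
    have hggood : ∀ k, core Sp (cls V g k) ∅ = ∅ := by
      intro k
      by_cases h1 : k = j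
      · subst h1; rw [hgj]; exact hA
      by_cases h2 : k = j1
      · subst h2
        rw [hgj1]
        have := core_mono (Sp := Sp) hm (X := ∅) (Finset.erase_subset u (cls V f k))
        rw [hgood k] at this
        exact Finset.subset_empty.1 this
      rw [hgk k h1 h2]; exact hgood k
    -- earlier layers do not change
    have hnx : ∀ k, k < i → nxt Sp (cls V g) (UU Sp (cls V f) v k)
        = nxt Sp (cls V f) (UU Sp (cls V f) v k) := by
      intro k hk
      refine nxt_congr (fun l => ?_)
      by_cases h1 : l = j
      · subst h1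
        rw [hgj]
        exact core_insert_sdiff hm (huUk k hk.le) (hB k hk.le)
      by_cases h2 : l = j1
      · subst h2
        rw [hgj1, erase_sdiff']
        refine core_erase hm ?_
        intro h
        have h3 : u ∈ nxt Sp (cls V f) (UU Sp (cls V f) v k) := core_sub_nxt _ _ _ h
        have h4 : u ∈ UU Sp (cls V f) v (k + 1) := Finset.mem_union_right _ h3
        exact huUk (k + 1) hk h4
      rw [hgk l h1 h2]
    have hUU : ∀ k, k ≤ i → UU Sp (cls V g) v k = UU Sp (cls V f) v k := by
      intro k
      induction k with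
      | zero => intro _; rfl
      | succ k ih =>
        intro hk
        rw [UU, UU, ih (by omega), hnx k (by omega)]
    have hmin' := hmin g hggood i (by omega) (by
      intro k hk
      rw [hUU k hk.le, hnx k hk])
    rw [hUU i le_rfl] at hmin'
    -- the layer i gets smaller
    have hlt : (nxt Sp (cls V g) (UU Sp (cls V f) v i)).card
        < (nxt Sp (cls V f) (UU Sp (cls V f) v i)).card := by
      apply Finset.card_lt_card
      rw [Finset.ssubset_iff_of_subset]
      · refine ⟨u, hu', ?_⟩
        intro h
        obtain ⟨l, _, hl⟩ := Finset.mem_biUnion.1 h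
        by_cases h1 : l = j
        · subst h1
          rw [hgj] at hl
          exact hB i le_rfl hl
        have h5 : u ∈ cls V g l := (Finset.mem_sdiff.1 (core_subset _ _ hl)).1
        have h6 : g u = l := (Finset.mem_filter.1 h5).2
        apply h1
        rw [← h6, hg, Function.update_self]
      · intro x hx
        obtain ⟨l, _, hl⟩ := Finset.mem_biUnion.1 hx
        by_cases h1 : l = j
        · subst h1
          rw [hgj, core_insert_sdiff hm huUi (hB i le_rfl)] at hl
          exact core_sub_nxt _ _ _ hl
        by_cases h2 : l = j1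
        · subst h2
          rw [hgj1] at hl
          refine core_sub_nxt _ _ l ?_
          exact core_mono hm (Finset.sdiff_subset_sdiff (Finset.erase_subset _ _)
            (Finset.Subset.refl _)) hl
        rw [hgk l h1 h2] at hl
        exact core_sub_nxt _ _ _ hl
    omega

theorem arith_step {q K a b l c : ℕ} (hq : 1 ≤ q) (hK : 32 * q ^ 2 ≤ K) (ha : a = b + l)
    (hab : 4 * q * b ≤ a) (h : (K - 1) * l ≤ q * (c + K * b)) : 4 * q * a ≤ c := by
  subst ha
  have hK1 : 1 ≤ K := by nlinarith
  obtain ⟨M, rfl⟩ : ∃ M, K = M + 1 := ⟨K - 1, by omega⟩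
  rw [Nat.add_sub_cancel] at h
  by_contra hc
  push Not at hc
  have h1 : M * l < q * (4 * q * (b + l) + (M + 1) * b) := by
    refine lt_of_le_of_lt h ?_
    exact Nat.mul_lt_mul_of_pos_left (by omega) (by omega)
  -- `4 q b ≤ b + l`
  have h2 : 4 * (q * ((M + 1) * b)) ≤ (M + 1) * (b + l) := by nlinarith
  have h3 : 3 * (b + l) ≤ 4 * l := by nlinarith
  have h4 : 4 * (M * l) < 16 * q ^ 2 * (b + l) + (M + 1) * (b + l) := by nlinarith
  have h5 : 3 * (M * (b + l)) < 16 * q ^ 2 * (b + l) + (M + 1) * (b + l) := by nlinarith
  have h6 : 32 * q ^ 2 * (b + l) ≤ (M + 1) * (b + l) := Nat.mul_le_mul_right _ hK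
  have h7 : 0 < b + l := by
    by_contra h0
    have hb0 : b = 0 := by omega
    have hl0 : l = 0 := by omega
    subst hb0; subst hl0
    simp at h1
  nlinarith [Nat.mul_le_mul_right (b + l) (Nat.one_le_pow 2 q hq)]

/-- The partition theorem: if a monotone span relation satisfies the size bound
`|L| ≤ q |B|` whenever all elements of `L` are spanned by the disjoint set `B`, then the set is a
union of `32 q ^ 2` sets with empty core. -/
theorem exists_partition (hm : ∀ v B B', B ⊆ B' → Sp v B → Sp v B') {q K : ℕ} (hq : 1 ≤ q)
    (hK : 32 * q ^ 2 ≤ K) (V : Finset α)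
    (hsize : ∀ L B : Finset α, L ⊆ V → B ⊆ V → Disjoint L B → (∀ u ∈ L, Sp u B) →
      L.card ≤ q * B.card) :
    ∃ f : α → Fin K, ∀ j, core Sp (cls V f j) ∅ = ∅ := by
  have hKpos : 0 < K := by nlinarith
  induction V using Finset.induction_on with
  | empty =>
    refine ⟨fun _ => ⟨0, hKpos⟩, fun j => ?_⟩
    exact Finset.subset_empty.1 ((core_subset _ _).trans (by simp [cls]))
  | insert v V hv ih =>
    have ih' := ih (fun L B hL hB => hsize L B (hL.trans (Finset.subset_insert _ _))
      (hB.trans (Finset.subset_insert _ _)))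
    by_contra hcon
    -- no good colouring of `V` can be extended
    have hno : ∀ f : α → Fin K, (∀ j, core Sp (cls V f j) ∅ = ∅) →
        ∀ j, core Sp (insert v (cls V f j)) ∅ ≠ ∅ := by
      intro f hf j hj
      apply hcon
      refine ⟨Function.update f v j, fun k => ?_⟩
      by_cases hk : k = j
      · subst hk
        have : cls (insert v V) (Function.update f v k) k = insert v (cls V f k) := by
          ext x
          simp only [cls, Finset.mem_filter, Finset.mem_insert]
          by_cases hx : x = v
          · subst hx; simp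
          · simp [Function.update_of_ne hx, hx]
        rw [this]; exact hj
      · have : cls (insert v V) (Function.update f v j) k = cls V f k := by
          ext x
          simp only [cls, Finset.mem_filter, Finset.mem_insert]
          by_cases hx : x = v
          · subst hx; simp [hv, Ne.symm hk]
          · simp [Function.update_of_ne hx, hx]
        rw [this]; exact hf k
    -- a colouring with lexicographically minimal layer sizes
    set n : ℕ := (insert v V).card with hn
    let sig : (α → Fin K) → (Fin n → ℕ) := fun f i =>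
      (nxt Sp (cls V f) (UU Sp (cls V f) v i)).card
    have hwf : WellFounded (Pi.Lex (fun a b : Fin n => a < b) (fun {_} (x y : ℕ) => x < y)) :=
      Pi.Lex.wellFounded _ (fun _ => wellFounded_lt)
    obtain ⟨f, hf, hfm⟩ : ∃ f : α → Fin K, (∀ j, core Sp (cls V f j) ∅ = ∅) ∧
        ∀ g : α → Fin K, (∀ j, core Sp (cls V g j) ∅ = ∅) →
          ¬ Pi.Lex (fun a b : Fin n => a < b) (fun {_} (x y : ℕ) => x < y) (sig g) (sig f) := by
      obtain ⟨f0, hf0⟩ := ih'
      have hne : (sig '' {f : α → Fin K | ∀ j, core Sp (cls V f j) ∅ = ∅}).Nonempty :=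
        ⟨_, f0, hf0, rfl⟩
      obtain ⟨m, ⟨f, hf, hfe⟩, hmm⟩ := hwf.has_min _ hne
      refine ⟨f, hf, fun g hg hlt => ?_⟩
      rw [hfe] at hlt
      exact hmm (sig g) ⟨g, hg, rfl⟩ hlt
    have hmin : ∀ g : α → Fin K, (∀ j, core Sp (cls V g j) ∅ = ∅) →
      ∀ i, i < n → (∀ k, k < i → (nxt Sp (cls V g) (UU Sp (cls V g) v k)).card
        = (nxt Sp (cls V f) (UU Sp (cls V f) v k)).card) →
      (nxt Sp (cls V f) (UU Sp (cls V f) v i)).card
        ≤ (nxt Sp (cls V g) (UU Sp (cls V g) v i)).card := by
      intro g hg i hi hk
      by_contra hlt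
      push Not at hlt
      apply hfm g hg
      exact ⟨⟨i, hi⟩, fun k hk' => hk k hk', hlt⟩
    have hbl := blocked hm V v f hf (hno f hf) hmin
    set C := cls V f with hC
    have hCV : ∀ j, C j ⊆ V := fun j => Finset.filter_subset _ _
    -- the basic inequality
    have hbasic : ∀ i, i ≤ n → (K - 1) * (Lay Sp C v i).card
        ≤ q * ((UU Sp C v (i + 1)).card + K * (Prev Sp C v i).card) := by
      intro i hi
      have hone : ∀ j, (Lay Sp C v i \ C j).card
          ≤ q * ((C j ∩ UU Sp C v (i + 1)).card + (Prev Sp C v i).card) := by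
        intro j
        have h1 : (Lay Sp C v i \ C j).card
            ≤ q * ((C j ∩ UU Sp C v (i + 1)) ∪ Prev Sp C v i).card := by
          refine hsize _ _ ?_ ?_ ?_ ?_
          · refine Finset.sdiff_subset.trans ((Lay_sub_UU C v i).trans (UU_sub C v hCV i))
          · refine Finset.union_subset (Finset.inter_subset_left.trans
              ((hCV j).trans (Finset.subset_insert _ _))) ?_
            cases i with
            | zero => exact Finset.empty_subset _
            | succ i => exact UU_sub C v hCV i
          · rw [Finset.disjoint_union_right]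
            refine ⟨?_, ?_⟩
            · rw [Finset.disjoint_left]
              intro x hx hx'
              exact (Finset.mem_sdiff.1 hx).2 (Finset.mem_inter.1 hx').1
            · exact Disjoint.mono_left Finset.sdiff_subset (Lay_disj_Prev C v i)
          · intro u hu
            have hu' := Finset.mem_sdiff.1 hu
            exact hbl i hi u hu'.1 j hu'.2
        refine h1.trans (Nat.mul_le_mul_left _ (Finset.card_union_le _ _))
      have hsum := Finset.sum_le_sum (fun j (_ : j ∈ (Finset.univ : Finset (Fin K))) => hone j)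
      rw [← Finset.mul_sum, Finset.sum_add_distrib, Finset.sum_const, Finset.card_univ,
        Fintype.card_fin, smul_eq_mul] at hsum
      have hA : ∑ j, (C j ∩ UU Sp C v (i + 1)).card ≤ (UU Sp C v (i + 1)).card := by
        rw [← Finset.card_biUnion]
        · apply Finset.card_le_card
          intro x hx
          obtain ⟨j, _, hj⟩ := Finset.mem_biUnion.1 hx
          exact (Finset.mem_inter.1 hj).2
        · intro j _ k _ hjk
          rw [Function.onFun, Finset.disjoint_left]
          intro x hx hx'
          have h1 := (Finset.mem_filter.1 (Finset.mem_inter.1 hx).1).2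
          have h2 := (Finset.mem_filter.1 (Finset.mem_inter.1 hx').1).2
          exact hjk (h1.symm.trans h2)
      have hB : (K - 1) * (Lay Sp C v i).card ≤ ∑ j, (Lay Sp C v i \ C j).card := by
        have h3 : ∑ j, (Lay Sp C v i ∩ C j).card ≤ (Lay Sp C v i).card := by
          rw [← Finset.card_biUnion]
          · apply Finset.card_le_card
            intro x hx
            obtain ⟨j, _, hj⟩ := Finset.mem_biUnion.1 hx
            exact (Finset.mem_inter.1 hj).1
          · intro j _ k _ hjk
            rw [Function.onFun, Finset.disjoint_left]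
            intro x hx hx'
            have h1 := (Finset.mem_filter.1 (Finset.mem_inter.1 hx).2).2
            have h2 := (Finset.mem_filter.1 (Finset.mem_inter.1 hx').2).2
            exact hjk (h1.symm.trans h2)
        have h4 : ∑ j : Fin K, (Lay Sp C v i).card
            = ∑ j, (Lay Sp C v i \ C j).card + ∑ j, (Lay Sp C v i ∩ C j).card := by
          rw [← Finset.sum_add_distrib]
          refine Finset.sum_congr rfl (fun j _ => ?_)
          rw [Finset.card_sdiff_add_card_inter]
        rw [Finset.sum_const, Finset.card_univ, Fintype.card_fin, smul_eq_mul] at h4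
        rw [Nat.sub_mul, one_mul]
        omega
      calc (K - 1) * (Lay Sp C v i).card ≤ ∑ j, (Lay Sp C v i \ C j).card := hB
        _ ≤ q * (∑ j, (C j ∩ UU Sp C v (i + 1)).card + K * (Prev Sp C v i).card) := hsum
        _ ≤ _ := Nat.mul_le_mul_left _ (Nat.add_le_add_right hA _)
    -- growth
    have hgrow : ∀ i, i ≤ n → 4 * q * (UU Sp C v i).card ≤ (UU Sp C v (i + 1)).card := by
      intro i
      induction i with
      | zero =>
        intro h0
        refine arith_step hq hK (card_UU C v 0) (by simp [Prev]) (hbasic 0 h0)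
      | succ i ihi =>
        intro hi
        exact arith_step hq hK (card_UU C v (i + 1)) (ihi (by omega)) (hbasic (i + 1) hi)
    have hbig : ∀ i, i ≤ n → i + 1 ≤ (UU Sp C v i).card := by
      intro i
      induction i with
      | zero => intro _; simp [UU]
      | succ i ihi =>
        intro hi
        have h1 := ihi (by omega)
        have h2 := hgrow i (by omega)
        nlinarith
    have h1 := hbig n le_rfl
    have h2 := Finset.card_le_card (UU_sub (Sp := Sp) C v hCV n)
    omega

end Layers

end Pool.Agent.Helper80.SU
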