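import Mathlib
import Pool.Agent.Helper80.SU.Base

/-!
The size bound: a dissociated set all of whose elements are spanned by `B` has at most
`C |B|` elements (edge isoperimetry in the discrete cube).
-/

set_option autoImplicit false

namespace Pool.Agent.Helper80.SU

open Finset

set_option linter.unusedSectionVars false

variable {G : Type*} [AddCommGroup G] [DecidableEq G]

/-- The members `X` of `A` with `u ∉ X` such that `X ∪ {u}` is in `A`, too. -/
def edg (u : G) (A : Finset (Finset G)) : Finset (Finset G) :=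
  A.filter (fun X => u ∉ X ∧ insert u X ∈ A)

theorem mem_edg {u : G} {A : Finset (Finset G)} {X : Finset G} :
    X ∈ edg u A ↔ X ∈ A ∧ u ∉ X ∧ insert u X ∈ A := by
  simp [edg]

theorem edg_nonMember (u w : G) (hw : u ≠ w) (A : Finset (Finset G)) :
    (edg u A).nonMemberSubfamily w = edg u (A.nonMemberSubfamily w) := by
  ext X
  simp only [mem_nonMemberSubfamily, mem_edg, mem_insert, not_or]
  constructor
  · rintro ⟨⟨h1, h2, h3⟩, h4⟩
    exact ⟨⟨h1, h4⟩, h2, h3, fun h => hw h.symm, h4⟩
  · rintro ⟨⟨h1, h4⟩, h2, h3, -⟩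
    exact ⟨⟨h1, h2, h3⟩, h4⟩

theorem edg_member (u w : G) (hw : u ≠ w) (A : Finset (Finset G)) :
    (edg u A).memberSubfamily w = edg u (A.memberSubfamily w) := by
  ext X
  simp only [mem_memberSubfamily, mem_edg, mem_insert, not_or]
  constructor
  · rintro ⟨⟨h1, ⟨h2, h2'⟩, h3⟩, h4⟩
    exact ⟨⟨h1, h4⟩, h2', by rwa [Finset.insert_comm], fun h => hw h.symm, h4⟩
  · rintro ⟨⟨h1, h4⟩, h2, h3, -⟩
    exact ⟨⟨h1, ⟨hw, h2⟩, by rwa [Finset.insert_comm]⟩, h4⟩

theorem log_ineq (a b k : ℕ) (ha : k ≤ a) (hb : k ≤ b) (hab : a ≤ b) :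
    k + (a * Nat.log 2 a + b * Nat.log 2 b) ≤ (a + b) * Nat.log 2 (a + b) := by
  have h2 : Nat.log 2 b ≤ Nat.log 2 (a + b) := Nat.log_mono_right (by omega)
  rcases Nat.eq_zero_or_pos a with h0 | h0
  · subst h0
    have : k = 0 := by omega
    subst this
    simp
  · have h1 : Nat.log 2 a + 1 ≤ Nat.log 2 (a + b) := by
      have : Nat.log 2 (a * 2) = Nat.log 2 a + 1 := Nat.log_mul_base (by norm_num) (by omega)
      rw [← this]
      exact Nat.log_mono_right (by omega)
    calc k + (a * Nat.log 2 a + b * Nat.log 2 b)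
        ≤ a + (a * Nat.log 2 a + b * Nat.log 2 b) := by omega
      _ = a * (Nat.log 2 a + 1) + b * Nat.log 2 b := by ring
      _ ≤ a * Nat.log 2 (a + b) + b * Nat.log 2 (a + b) :=
          Nat.add_le_add (Nat.mul_le_mul_left _ h1) (Nat.mul_le_mul_left _ h2)
      _ = (a + b) * Nat.log 2 (a + b) := by ring

theorem log_ineq' (a b k : ℕ) (ha : k ≤ a) (hb : k ≤ b) :
    k + (a * Nat.log 2 a + b * Nat.log 2 b) ≤ (a + b) * Nat.log 2 (a + b) := by
  rcases le_total a b with h | h
  · exact log_ineq a b k ha hb h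
  · have := log_ineq b a k hb ha h
    rw [Nat.add_comm a b]
    omega

/-- A family of `m` subsets of `D` spans at most `m log m` edges of the cube. -/
theorem edge_count (D : Finset G) : ∀ (A : Finset (Finset G)), (∀ X ∈ A, X ⊆ D) →
    ∑ u ∈ D, (edg u A).card ≤ A.card * Nat.log 2 A.card := by
  induction D using Finset.induction_on with
  | empty => intro A _; simp
  | insert w D hw ih =>
    intro A hA
    rw [Finset.sum_insert hw]
    have h0 : ∀ X ∈ A.nonMemberSubfamily w, X ⊆ D := by
      intro X hX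
      rw [mem_nonMemberSubfamily] at hX
      intro x hx
      have := hA X hX.1 hx
      rcases Finset.mem_insert.mp this with h | h
      · subst h; exact absurd hx hX.2
      · exact h
    have h1 : ∀ X ∈ A.memberSubfamily w, X ⊆ D := by
      intro X hX
      rw [mem_memberSubfamily] at hX
      intro x hx
      have := hA _ hX.1 (Finset.mem_insert_of_mem hx)
      rcases Finset.mem_insert.mp this with h | h
      · subst h; exact absurd hx hX.2
      · exact h
    have e1 := ih _ h0
    have e2 := ih _ h1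
    have e3 : ∑ u ∈ D, (edg u A).card = ∑ u ∈ D, (edg u (A.memberSubfamily w)).card
        + ∑ u ∈ D, (edg u (A.nonMemberSubfamily w)).card := by
      rw [← Finset.sum_add_distrib]
      refine Finset.sum_congr rfl (fun u hu => ?_)
      have huw : u ≠ w := fun h => hw (h ▸ hu)
      rw [← edg_member u w huw, ← edg_nonMember u w huw,
        card_memberSubfamily_add_card_nonMemberSubfamily]
    have e4 : (edg w A).card ≤ (A.nonMemberSubfamily w).card := by
      apply Finset.card_le_card
      intro X hX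
      rw [mem_edg] at hX
      rw [mem_nonMemberSubfamily]
      exact ⟨hX.1, hX.2.1⟩
    have e5 : (edg w A).card ≤ (A.memberSubfamily w).card := by
      apply Finset.card_le_card
      intro X hX
      rw [mem_edg] at hX
      rw [mem_memberSubfamily]
      exact ⟨hX.2.2, hX.2.1⟩
    have e6 := card_memberSubfamily_add_card_nonMemberSubfamily w A
    have e7 := log_ineq' _ _ _ e5 e4
    rw [e6] at e7
    rw [e3]
    omega

/-- The weighted form, by layers. -/
theorem weighted_edge (D : Finset G) (f : Finset G → ℕ) (N : ℕ)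
    (hN : (D.powerset.filter (fun X => f X ≠ 0)).card ≤ N) :
    ∑ u ∈ D, ∑ X ∈ D.powerset.filter (fun X => u ∉ X), min (f X) (f (insert u X))
      ≤ Nat.log 2 N * ∑ X ∈ D.powerset, f X := by
  classical
  obtain ⟨M, hM⟩ : ∃ M, ∀ X ∈ D.powerset, f X ≤ M :=
    ⟨(D.powerset).sup f, fun X hX => Finset.le_sup hX⟩
  let A : ℕ → Finset (Finset G) := fun t => D.powerset.filter (fun X => t < f X)
  have hAsub : ∀ t, ∀ X ∈ A t, X ⊆ D := by
    intro t X hX
    simp only [A, Finset.mem_filter, Finset.mem_powerset] at hX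
    exact hX.1
  have hAcard : ∀ t, (A t).card ≤ N := by
    intro t
    refine le_trans (Finset.card_le_card ?_) hN
    intro X hX
    simp only [A, Finset.mem_filter] at hX ⊢
    exact ⟨hX.1, by omega⟩
  have hmin : ∀ u ∈ D, ∀ X ∈ D.powerset.filter (fun X => u ∉ X),
      min (f X) (f (insert u X)) = ∑ t ∈ range M, if X ∈ edg u (A t) then 1 else 0 := by
    intro u hu X hX
    rw [Finset.mem_filter, Finset.mem_powerset] at hX
    have h1 : f X ≤ M := hM X (Finset.mem_powerset.mpr hX.1)
    rw [← Finset.card_filter]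
    have h2 : (range M).filter (fun t => X ∈ edg u (A t)) = range (min (f X) (f (insert u X))) := by
      ext t
      simp only [Finset.mem_filter, Finset.mem_range, mem_edg, A, Finset.mem_powerset, lt_min_iff]
      constructor
      · rintro ⟨-, ⟨-, h3⟩, -, -, h4⟩
        exact ⟨h3, h4⟩
      · rintro ⟨h3, h4⟩
        exact ⟨by omega, ⟨hX.1, h3⟩, hX.2, Finset.insert_subset hu hX.1, h4⟩
    rw [h2, Finset.card_range]
  have hsum : ∀ X ∈ D.powerset, f X = ∑ t ∈ range M, if X ∈ A t then 1 else 0 := by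
    intro X hX
    have h1 : f X ≤ M := hM X hX
    rw [← Finset.card_filter]
    have h2 : (range M).filter (fun t => X ∈ A t) = range (f X) := by
      ext t
      simp only [Finset.mem_filter, Finset.mem_range, A]
      constructor
      · rintro ⟨-, -, h3⟩
        exact h3
      · intro h3
        exact ⟨by omega, hX, h3⟩
    rw [h2, Finset.card_range]
  have hL : ∑ u ∈ D, ∑ X ∈ D.powerset.filter (fun X => u ∉ X), min (f X) (f (insert u X))
      = ∑ t ∈ range M, ∑ u ∈ D, (edg u (A t)).card := by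
    rw [Finset.sum_comm (s := range M)]
    refine Finset.sum_congr rfl (fun u hu => ?_)
    rw [Finset.sum_congr rfl (hmin u hu), Finset.sum_comm]
    refine Finset.sum_congr rfl (fun t _ => ?_)
    rw [← Finset.card_filter]
    congr 1
    ext X
    simp only [Finset.mem_filter, Finset.mem_powerset, mem_edg, A]
    tauto
  have hR : ∑ X ∈ D.powerset, f X = ∑ t ∈ range M, (A t).card := by
    rw [Finset.sum_congr rfl hsum, Finset.sum_comm]
    refine Finset.sum_congr rfl (fun t _ => ?_)
    rw [← Finset.card_filter]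
    congr 1
    ext X
    simp only [Finset.mem_filter, A]
    tauto
  rw [hL, hR, Finset.mul_sum]
  refine Finset.sum_le_sum (fun t _ => ?_)
  refine le_trans (edge_count D (A t) (hAsub t)) ?_
  rw [Nat.mul_comm]
  exact Nat.mul_le_mul_right _ (Nat.log_mono_right (hAcard t))

theorem card_not_mem (D : Finset G) (u : G) (hu : u ∈ D) :
    2 * (D.powerset.filter (fun X => u ∉ X)).card = 2 ^ D.card := by
  have h : D.powerset.filter (fun X => u ∉ X) = (D.erase u).powerset := by
    ext X
    simp only [Finset.mem_filter, Finset.mem_powerset, Finset.subset_erase]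
  rw [h, Finset.card_powerset, Finset.card_erase_of_mem hu]
  have : 0 < D.card := Finset.card_pos.mpr ⟨u, hu⟩
  rw [← pow_succ']
  congr 1
  omega

/-- The overlap bound: the sum over a dissociated set `E` of the overlaps of a counting function
`P` with its translates is at most `2 log |supp P|` times the mass. -/
theorem overlap_sum (P : G →₀ ℕ) (E : Finset G) (hE : Diss E) :
    ∑ u ∈ E, ov P u ≤ 2 * (Nat.log 2 P.support.card * ∑ y ∈ P.support, P y) := by
  classical
  let Y : Finset G := E.powerset.biUnion (fun X => P.support.image (fun z => z + ∑ x ∈ X, x))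
  have hinj : ∀ y, (E.powerset.filter (fun X => P (y - ∑ x ∈ X, x) ≠ 0)).card
      ≤ P.support.card := by
    intro y
    refine Finset.card_le_card_of_injOn (fun X => y - ∑ x ∈ X, x) ?_ ?_
    · intro X hX
      have hX' := Finset.mem_coe.mp hX
      rw [Finset.mem_filter] at hX'
      exact Finset.mem_coe.mpr (Finsupp.mem_support_iff.mpr hX'.2)
    · intro X hX X' hX' h
      have h1 := Finset.mem_coe.mp hX
      have h2 := Finset.mem_coe.mp hX'
      rw [Finset.mem_filter, Finset.mem_powerset] at h1 h2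
      exact hE X X' h1.1 h2.1 (sub_right_injective h)
  have hw : ∀ y ∈ Y, ∑ u ∈ E, ∑ X ∈ E.powerset.filter (fun X => u ∉ X),
      min (P (y - ∑ x ∈ X, x)) (P (y - ∑ x ∈ insert u X, x))
      ≤ Nat.log 2 P.support.card * ∑ X ∈ E.powerset, P (y - ∑ x ∈ X, x) := by
    intro y _
    exact weighted_edge E (fun X => P (y - ∑ x ∈ X, x)) _ (hinj y)
  have hsum := Finset.sum_le_sum hw
  rw [← Finset.mul_sum] at hsum
  -- the left side
  have hleft : 2 ^ E.card * ∑ u ∈ E, ov P u ≤ 2 * ∑ y ∈ Y, ∑ u ∈ E,
      ∑ X ∈ E.powerset.filter (fun X => u ∉ X),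
      min (P (y - ∑ x ∈ X, x)) (P (y - ∑ x ∈ insert u X, x)) := by
    rw [Finset.sum_comm (s := Y), Finset.mul_sum, Finset.mul_sum]
    refine Finset.sum_le_sum (fun u hu => ?_)
    rw [Finset.sum_comm (s := Y), ← card_not_mem E u hu, Nat.mul_assoc]
    refine Nat.mul_le_mul_left _ ?_
    rw [← smul_eq_mul, ← Finset.sum_const]
    refine Finset.sum_le_sum (fun X hX => ?_)
    rw [Finset.mem_filter, Finset.mem_powerset] at hX
    have h1 : ∑ y ∈ P.support.image (fun z => z + ∑ x ∈ X, x),
        min (P (y - ∑ x ∈ X, x)) (P (y - ∑ x ∈ insert u X, x)) = ov P u := by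
      rw [Finset.sum_image (fun a _ b _ h => add_right_cancel h)]
      unfold ov
      refine Finset.sum_congr rfl (fun z _ => ?_)
      rw [Finset.sum_insert hX.2]
      congr 2 <;> abel
    rw [← h1]
    refine Finset.sum_le_sum_of_subset ?_
    intro y hy
    simp only [Y, Finset.mem_biUnion]
    exact ⟨X, Finset.mem_powerset.mpr hX.1, hy⟩
  have hright : ∑ y ∈ Y, ∑ X ∈ E.powerset, P (y - ∑ x ∈ X, x)
      ≤ 2 ^ E.card * ∑ y ∈ P.support, P y := by
    rw [Finset.sum_comm, ← Finset.card_powerset, ← smul_eq_mul, ← Finset.sum_const]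
    refine Finset.sum_le_sum (fun X _ => ?_)
    rw [← Finset.sum_image (s := Y) (g := fun y => y - ∑ x ∈ X, x) (f := fun z => P z)
      (fun a _ b _ h => sub_left_injective h)]
    refine le_trans (Finset.sum_le_sum_of_ne_zero ?_) (le_refl _)
    intro z _ hz
    exact Finsupp.mem_support_iff.mpr hz
  have h2 : 2 ^ E.card * ∑ u ∈ E, ov P u
      ≤ 2 ^ E.card * (2 * (Nat.log 2 P.support.card * ∑ y ∈ P.support, P y)) := by
    refine le_trans hleft ?_
    refine le_trans (Nat.mul_le_mul_left 2 hsum) ?_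
    refine le_trans (Nat.mul_le_mul_left 2 (Nat.mul_le_mul_left _ hright)) ?_
    exact le_of_eq (by ring)
  exact Nat.le_of_mul_le_mul_left h2 (by positivity)

theorem law_sum_le (q : ℕ) (B : Finset G) : ∀ T : Finset G,
    ∑ y ∈ T, law q B y ≤ q ^ B.card := by
  classical
  induction B using Finset.induction_on with
  | empty =>
    intro T
    simp only [law_empty, Finset.card_empty, pow_zero]
    rw [Finset.sum_ite_eq']
    split_ifs <;> simp
  | insert b B hb ih =>
    intro T
    simp only [law_insert q B b hb]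
    rw [Finset.sum_comm, Finset.card_insert_of_notMem hb, pow_succ, Nat.mul_comm]
    have h1 : q * q ^ B.card = ∑ j ∈ range q, q ^ B.card := by simp
    rw [h1]
    refine Finset.sum_le_sum (fun j _ => ?_)
    rw [← Finset.sum_image (s := T) (g := fun y => y - j • b) (f := fun z => law q B z)
      (fun a _ b _ h => sub_left_injective h)]
    exact ih _

theorem law_support_le (q : ℕ) (B : Finset G) : (law q B).support.card ≤ q ^ B.card := by
  refine le_trans ?_ (law_sum_le q B (law q B).support)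
  rw [Finset.card_eq_sum_ones]
  refine Finset.sum_le_sum (fun y hy => ?_)
  exact Nat.one_le_iff_ne_zero.mpr (Finsupp.mem_support_iff.mp hy)

theorem diss_smul (hG : ∀ (j : ℕ) (x : G), j ≠ 0 → j • x = 0 → x = 0) (j : ℕ) (hj : j ≠ 0)
    (D : Finset G) (hD : Diss D) : Diss (D.image (fun u => j • u)) := by
  classical
  have hinj : Function.Injective (fun u : G => j • u) := by
    intro a b h
    have h1 : j • (a - b) = 0 := by
      rw [smul_sub]
      exact sub_eq_zero.mpr h
    exact sub_eq_zero.mp (hG j _ hj h1)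
  intro X Y hX hY h
  obtain ⟨X', hX', rfl⟩ := Finset.subset_image_iff.mp hX
  obtain ⟨Y', hY', rfl⟩ := Finset.subset_image_iff.mp hY
  rw [Finset.sum_image (fun a _ b _ h => hinj h), Finset.sum_image (fun a _ b _ h => hinj h),
    ← Finset.smul_sum, ← Finset.smul_sum] at h
  rw [hD X' Y' (by exact_mod_cast hX') (by exact_mod_cast hY') (hinj h)]

theorem size_bound (hG : ∀ (j : ℕ) (x : G), j ≠ 0 → j • x = 0 → x = 0) (p s : ℕ)
    (B D : Finset G) (hD : Diss D) (h : ∀ u ∈ D, Sp (2 ^ p) s u B) :
    D.card ≤ 2 ^ p * 2 ^ (s + 1) * p * B.card := by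
  classical
  let Dj : ℕ → Finset G := fun j =>
    D.filter (fun u => (2 ^ p) ^ B.card ≤ 2 ^ s * ov (law (2 ^ p) B) (j • u))
  have hinj : ∀ j : ℕ, j ≠ 0 → Function.Injective (fun u : G => j • u) := by
    intro j hj a b h
    have h1 : j • (a - b) = 0 := by
      rw [smul_sub]
      exact sub_eq_zero.mpr h
    exact sub_eq_zero.mp (hG j _ hj h1)
  have hlog : Nat.log 2 (law (2 ^ p) B).support.card ≤ p * B.card := by
    refine le_trans (Nat.log_mono_right (law_support_le (2 ^ p) B)) ?_
    rw [← pow_mul, Nat.log_pow (by norm_num)]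
  have hDj : ∀ j ∈ Finset.Ico 1 (2 ^ p), (Dj j).card ≤ 2 ^ (s + 1) * p * B.card := by
    intro j hj
    rw [Finset.mem_Ico] at hj
    have hj0 : j ≠ 0 := by omega
    have hsub : Diss (Dj j) := fun X Y hX hY hXY =>
      hD X Y (hX.trans (Finset.filter_subset _ _)) (hY.trans (Finset.filter_subset _ _)) hXY
    have h1 := overlap_sum (law (2 ^ p) B) _ (diss_smul hG j hj0 (Dj j) hsub)
    rw [Finset.sum_image (fun a _ b _ h => hinj j hj0 h)] at h1
    have h2 : (Dj j).card * (2 ^ p) ^ B.card
        ≤ 2 ^ s * ∑ u ∈ Dj j, ov (law (2 ^ p) B) (j • u) := by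
      rw [Finset.mul_sum, ← smul_eq_mul, ← Finset.sum_const]
      refine Finset.sum_le_sum (fun u hu => ?_)
      exact (Finset.mem_filter.mp hu).2
    have h3 : 2 ^ s * ∑ u ∈ Dj j, ov (law (2 ^ p) B) (j • u)
        ≤ 2 ^ s * (2 * (p * B.card * (2 ^ p) ^ B.card)) := by
      refine Nat.mul_le_mul_left _ (le_trans h1 ?_)
      exact Nat.mul_le_mul_left _ (Nat.mul_le_mul hlog (law_sum_le _ _ _))
    have h4 : (Dj j).card * (2 ^ p) ^ B.card
        ≤ (2 ^ (s + 1) * p * B.card) * (2 ^ p) ^ B.card := by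
      refine le_trans h2 (le_trans h3 (le_of_eq ?_))
      ring
    exact Nat.le_of_mul_le_mul_right h4 (by positivity)
  have hcov : D ⊆ (Finset.Ico 1 (2 ^ p)).biUnion Dj := by
    intro u hu
    obtain ⟨j, hj1, hj2, hj3⟩ := h u hu
    rw [Finset.mem_biUnion]
    exact ⟨j, Finset.mem_Ico.mpr ⟨hj1, hj2⟩, Finset.mem_filter.mpr ⟨hu, hj3⟩⟩
  calc D.card ≤ ((Finset.Ico 1 (2 ^ p)).biUnion Dj).card := Finset.card_le_card hcov
    _ ≤ ∑ j ∈ Finset.Ico 1 (2 ^ p), (Dj j).card := Finset.card_biUnion_le
    _ ≤ ∑ _j ∈ Finset.Ico 1 (2 ^ p), 2 ^ (s + 1) * p * B.card := Finset.sum_le_sum hDj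
    _ = (2 ^ p - 1) * (2 ^ (s + 1) * p * B.card) := by
        rw [Finset.sum_const, smul_eq_mul, Nat.card_Ico]
    _ ≤ 2 ^ p * (2 ^ (s + 1) * p * B.card) := Nat.mul_le_mul_right _ (Nat.sub_le _ _)
    _ = 2 ^ p * 2 ^ (s + 1) * p * B.card := by ring

end Pool.Agent.Helper80.SU
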