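import Mathlib
import Pool.Agent.Helper80.SU.Base
import Pool.Agent.Helper80.SU.Search
import Pool.Agent.Helper80.SU.Size
import Pool.Agent.S12.Cpt
import Pool.Agent.Helper80.SU.Large

/-!
Assembly: a set in a torsion-free group all of whose finite subsets contain proportionally large
dissociated subsets is a finite union of sets with proportion close to one.
-/

set_option autoImplicit false

namespace Pool.Agent.Helper80.SU

open Finset

set_option linter.unusedSectionVars false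

variable {G : Type*} [AddCommGroup G] [DecidableEq G]

theorem diss_mono {D D' : Finset G} (h : D ⊆ D') (hD : Diss D') : Diss D :=
  fun X Y hX hY hXY => hD X Y (hX.trans h) (hY.trans h) hXY

/-- The theorem for finite sets: a colouring with all classes good. -/
theorem finite_colouring (hG : ∀ (j : ℕ) (x : G), j ≠ 0 → j • x = 0 → x = 0)
    (C p s K : ℕ) (hC : 1 ≤ C) (hp : 1 ≤ p)
    (hK : 32 * (C * (2 ^ p * 2 ^ (s + 1) * p)) ^ 2 ≤ K) (V : Finset G)
    (hV : ∀ B : Finset G, B ⊆ V → ∃ D : Finset G, D ⊆ B ∧ Diss D ∧ B.card ≤ C * D.card) :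
    ∃ f : G → Fin K, ∀ B : Finset G, B ⊆ V → (∀ x ∈ B, ∀ y ∈ B, f x = f y) →
      Good (2 ^ p) s B := by
  classical
  have hmono : ∀ (v : G) (B B' : Finset G), B ⊆ B' → Sp (2 ^ p) s v B → Sp (2 ^ p) s v B' :=
    fun v B B' h hS => sp_mono v B B' h hS
  have hq : 1 ≤ C * (2 ^ p * 2 ^ (s + 1) * p) := by
    have : 0 < C * (2 ^ p * 2 ^ (s + 1) * p) := by positivity
    omega
  obtain ⟨f, hf⟩ := exists_partition (Sp := fun v B => Sp (2 ^ p) s v B) hmono hq hK V (by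
    intro L B hL _ _ hLB
    obtain ⟨D, hDL, hD, hcard⟩ := hV L hL
    have h1 := size_bound hG p s B D hD (fun u hu => hLB u (hDL hu))
    calc L.card ≤ C * D.card := hcard
      _ ≤ C * (2 ^ p * 2 ^ (s + 1) * p * B.card) := Nat.mul_le_mul_left _ h1
      _ = C * (2 ^ p * 2 ^ (s + 1) * p) * B.card := by ring)
  refine ⟨f, fun B hB hmonoB Z hZ hZne => ?_⟩
  by_contra hcon
  push Not at hcon
  obtain ⟨z0, hz0⟩ := hZne
  have hsub : Z ⊆ cls V f (f z0) := by
    intro z hz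
    exact Finset.mem_filter.mpr ⟨hB (hZ hz), hmonoB z (hZ hz) z0 (hZ hz0)⟩
  have h1 : Z ⊆ core (fun v B => Sp (2 ^ p) s v B) (cls V f (f z0)) ∅ := by
    refine core_max hsub (fun z hz => ?_)
    rw [Finset.union_empty]
    exact hcon z hz
  rw [hf] at h1
  exact absurd (h1 hz0) (Finset.notMem_empty _)

/-- The theorem in a torsion-free group. -/
theorem main_torsionFree (hG : ∀ (j : ℕ) (x : G), j ≠ 0 → j • x = 0 → x = 0)
    (W : Set G) (C d : ℕ) (hC : 1 ≤ C) (hd : 1 ≤ d)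
    (hW : ∀ B : Finset G, (B : Set G) ⊆ W →
      ∃ D : Finset G, D ⊆ B ∧ Diss D ∧ B.card ≤ C * D.card) :
    ∃ f : G → Fin (2 ^ (18 * d + 29) * (4 * d + 5) ^ 2 * C ^ 2),
      ∀ B : Finset G, (B : Set G) ⊆ W → (∀ x ∈ B, ∀ y ∈ B, f x = f y) →
        ∃ D : Finset G, D ⊆ B ∧ Diss D ∧ (d - 1) * B.card ≤ d * D.card := by
  have h2d : 2 * d ≤ 2 ^ d := by
    obtain ⟨n, rfl⟩ : ∃ n, d = n + 1 := ⟨d - 1, by omega⟩
    have : n < 2 ^ n := Nat.lt_two_pow_self
    rw [pow_succ]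
    omega
  obtain ⟨f, hf⟩ := Pool.Agent.S12.compactness
    (2 ^ (18 * d + 29) * (4 * d + 5) ^ 2 * C ^ 2) W
    (fun B => Good (2 ^ (4 * d + 5)) (4 * d + 5 + d + 1) B) (by
      intro V hV
      refine finite_colouring hG C (4 * d + 5) (4 * d + 5 + d + 1) _ hC (by omega) ?_ V
        (fun B hB => hW B (fun x hx => hV (Finset.mem_coe.mpr (hB (Finset.mem_coe.mp hx)))))
      refine le_of_eq ?_
      ring)
  refine ⟨f, fun B hB hmono => ?_⟩
  exact good_large hd rfl h2d rfl B (hf B hB hmono)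

/-- The theorem for sets of natural numbers. -/
theorem main_nat (A : Set ℕ) (c : ℝ) (hc : 0 < c)
    (hA : ∀ B : Finset ℕ, (↑B : Set ℕ) ⊆ A →
      ∃ D : Finset ℕ, D ⊆ B ∧
        (∀ X Y : Finset ℕ, X ⊆ D → Y ⊆ D → X ≠ Y → X.sum id ≠ Y.sum id) ∧
        c * (B.card : ℝ) ≤ (D.card : ℝ)) (d : ℕ) (hd : 1 ≤ d) :
    ∃ F : Fin (2 ^ (18 * d + 29) * (4 * d + 5) ^ 2 * ⌈1 / c⌉₊ ^ 2) → Set ℕ,
      (∀ i, ∀ B : Finset ℕ, (↑B : Set ℕ) ⊆ F i →
        ∃ D : Finset ℕ, D ⊆ B ∧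
          (∀ X Y : Finset ℕ, X ⊆ D → Y ⊆ D → X ≠ Y → X.sum id ≠ Y.sum id) ∧
          (1 - 1 / (d : ℝ)) * (B.card : ℝ) ≤ (D.card : ℝ)) ∧
      A = ⋃ i, F i := by
  classical
  set C : ℕ := ⌈1 / c⌉₊ with hCdef
  have hC1 : 1 ≤ C := Nat.one_le_iff_ne_zero.mpr (by
    have : 0 < C := Nat.ceil_pos.mpr (by positivity)
    omega)
  have hCc : 1 ≤ (C : ℝ) * c := by
    have h := Nat.le_ceil (1 / c)
    rw [← hCdef, div_le_iff₀ hc] at h
    exact h
  have hcast : Function.Injective (fun n : ℕ => (n : ℤ)) := fun a b h => Int.ofNat.inj h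
  -- transfer of dissociated sets
  have hto : ∀ D : Finset ℕ,
      (∀ X Y : Finset ℕ, X ⊆ D → Y ⊆ D → X ≠ Y → X.sum id ≠ Y.sum id) →
      Diss (D.image (fun n : ℕ => (n : ℤ))) := by
    intro D hD X Y hX hY hXY
    obtain ⟨X', hX', rfl⟩ := Finset.subset_image_iff.mp hX
    obtain ⟨Y', hY', rfl⟩ := Finset.subset_image_iff.mp hY
    rw [Finset.sum_image (fun a _ b _ h => hcast h),
      Finset.sum_image (fun a _ b _ h => hcast h)] at hXY
    by_contra hne
    have hne' : X' ≠ Y' := fun h => hne (by rw [h])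
    refine hD X' Y' (by exact_mod_cast hX') (by exact_mod_cast hY') hne' ?_
    have : ((∑ x ∈ X', x : ℕ) : ℤ) = ((∑ y ∈ Y', y : ℕ) : ℤ) := by
      push_cast
      exact hXY
    exact_mod_cast this
  have hfrom : ∀ D : Finset ℕ, Diss (D.image (fun n : ℕ => (n : ℤ))) →
      (∀ X Y : Finset ℕ, X ⊆ D → Y ⊆ D → X ≠ Y → X.sum id ≠ Y.sum id) := by
    intro D hD X Y hX hY hne h
    refine hne (Finset.image_injective hcast ?_)
    refine hD _ _ (Finset.image_subset_image hX) (Finset.image_subset_image hY) ?_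
    rw [Finset.sum_image (fun a _ b _ h => hcast h), Finset.sum_image (fun a _ b _ h => hcast h)]
    have : ((X.sum id : ℕ) : ℤ) = ((Y.sum id : ℕ) : ℤ) := by rw [h]
    push_cast at this
    simpa using this
  let W : Set ℤ := (fun n : ℕ => (n : ℤ)) '' A
  have hpull : ∀ B : Finset ℤ, (B : Set ℤ) ⊆ W →
      ∃ B' : Finset ℕ, (B' : Set ℕ) ⊆ A ∧ B'.image (fun n : ℕ => (n : ℤ)) = B := by
    intro B hB
    obtain ⟨B', hB', h⟩ := Finset.subset_set_image_iff.mp hB
    exact ⟨B', hB', h⟩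
  have hW : ∀ B : Finset ℤ, (B : Set ℤ) ⊆ W →
      ∃ D : Finset ℤ, D ⊆ B ∧ Diss D ∧ B.card ≤ C * D.card := by
    intro B hB
    obtain ⟨B', hB', rfl⟩ := hpull B hB
    obtain ⟨D, hDB, hD, hcard⟩ := hA B' hB'
    refine ⟨D.image (fun n : ℕ => (n : ℤ)), Finset.image_subset_image hDB, hto D hD, ?_⟩
    rw [Finset.card_image_of_injective _ hcast, Finset.card_image_of_injective _ hcast]
    have h1 : (B'.card : ℝ) ≤ (C : ℝ) * (D.card : ℝ) := by
      calc (B'.card : ℝ) = 1 * (B'.card : ℝ) := by ring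
        _ ≤ ((C : ℝ) * c) * (B'.card : ℝ) := by
            exact mul_le_mul_of_nonneg_right hCc (by positivity)
        _ = (C : ℝ) * (c * (B'.card : ℝ)) := by ring
        _ ≤ (C : ℝ) * (D.card : ℝ) := mul_le_mul_of_nonneg_left hcard (by positivity)
    exact_mod_cast h1
  obtain ⟨f, hf⟩ := main_torsionFree (G := ℤ) (by
    intro j x hj hx
    rw [nsmul_eq_mul, mul_eq_zero] at hx
    rcases hx with h | h
    · exact absurd (by exact_mod_cast h) hj
    · exact h) W C d hC1 hd hW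
  refine ⟨fun i => {n | n ∈ A ∧ f (n : ℤ) = i}, ?_, ?_⟩
  · intro i B hB
    obtain ⟨D, hDB, hD, hcard⟩ := hf (B.image (fun n : ℕ => (n : ℤ))) (by
      intro x hx
      obtain ⟨n, hn, rfl⟩ := Finset.mem_image.mp (Finset.mem_coe.mp hx)
      exact ⟨n, (hB (Finset.mem_coe.mpr hn)).1, rfl⟩) (by
      intro x hx y hy
      obtain ⟨n, hn, rfl⟩ := Finset.mem_image.mp hx
      obtain ⟨m, hm, rfl⟩ := Finset.mem_image.mp hy
      rw [(hB (Finset.mem_coe.mpr hn)).2, (hB (Finset.mem_coe.mpr hm)).2])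
    obtain ⟨D', hD', rfl⟩ := Finset.subset_image_iff.mp hDB
    refine ⟨D', by exact_mod_cast hD', hfrom D' hD, ?_⟩
    rw [Finset.card_image_of_injective _ hcast, Finset.card_image_of_injective _ hcast] at hcard
    have hd0 : (0 : ℝ) < d := by exact_mod_cast hd
    have h1 : ((d : ℝ) - 1) * (B.card : ℝ) ≤ (d : ℝ) * (D'.card : ℝ) := by
      have h2 : (((d - 1) * B.card : ℕ) : ℝ) ≤ ((d * D'.card : ℕ) : ℝ) := by exact_mod_cast hcard
      push_cast [Nat.cast_sub hd] at h2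
      exact h2
    have h3 : (1 - 1 / (d : ℝ)) * (B.card : ℝ) = (((d : ℝ) - 1) * (B.card : ℝ)) / d := by
      field_simp
    rw [h3, div_le_iff₀ hd0]
    linarith
  · ext n
    simp only [Set.mem_iUnion, Set.mem_ofPred_eq]
    constructor
    · intro hn
      exact ⟨f (n : ℤ), hn, rfl⟩
    · rintro ⟨i, hn, -⟩
      exact hn

end Pool.Agent.Helper80.SU
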