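import Pool.Agent.Helper80.SU.Over

/-!
# Good sets contain large strongly independent sets

`IndepM M D`: there is no nontrivial relation over `D` with coefficients in `{-M, ..., M}`.
-/

set_option autoImplicit false

namespace Pool.Agent.Helper80.SU

open Finset

variable {G : Type*} [AddCommGroup G] [DecidableEq G]

/-- No nontrivial relation with integer coefficients of absolute value at most `M`. -/
def IndepM (M : ℕ) (D : Finset G) : Prop :=
  ∀ x : G → ℤ, (∀ g ∈ D, |x g| ≤ M) → ∑ g ∈ D, x g • g = 0 → ∀ g ∈ D, x g = 0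

/-- A weight separating the coefficient vectors. -/
theorem exists_weightM (M : ℕ) (B : Finset G) : ∃ w : G → ℕ, ∀ x : G → ℤ,
    (∀ g ∈ B, |x g| ≤ M) → ∑ g ∈ B, x g * (w g : ℤ) = 0 → ∀ g ∈ B, x g = 0 := by
  induction B using Finset.induction_on with
  | empty => exact ⟨fun _ => 0, by simp⟩
  | insert b B hb ih =>
    obtain ⟨w, hw⟩ := ih
    refine ⟨Function.update w b (M * ∑ g ∈ B, w g + 1), ?_⟩
    intro x hx hsum
    have hne : ∀ g ∈ B, g ≠ b := fun g hg h => hb (h ▸ hg)
    have hs : ∑ g ∈ B, x g * ((Function.update w b (M * ∑ g ∈ B, w g + 1) g : ℕ) : ℤ)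
        = ∑ g ∈ B, x g * (w g : ℤ) :=
      Finset.sum_congr rfl (fun g hg => by rw [Function.update_of_ne (hne g hg)])
    rw [Finset.sum_insert hb, hs, Function.update_self] at hsum
    have hB : |∑ g ∈ B, x g * (w g : ℤ)| ≤ M * ∑ g ∈ B, (w g : ℤ) := by
      refine (Finset.abs_sum_le_sum_abs _ _).trans ?_
      rw [Finset.mul_sum]
      refine Finset.sum_le_sum (fun g hg => ?_)
      rw [abs_mul, abs_of_nonneg (Int.natCast_nonneg (w g))]
      exact mul_le_mul_of_nonneg_right (hx g (Finset.mem_insert_of_mem hg))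
        (Int.natCast_nonneg _)
    have hxb : x b = 0 := by
      by_contra h
      have h1 : 1 ≤ |x b| := Int.one_le_abs h
      have h2 : |x b * ((M * ∑ g ∈ B, w g + 1 : ℕ) : ℤ)| = |∑ g ∈ B, x g * (w g : ℤ)| := by
        have : x b * ((M * ∑ g ∈ B, w g + 1 : ℕ) : ℤ) = - ∑ g ∈ B, x g * (w g : ℤ) := by linarith
        rw [this, abs_neg]
      rw [abs_mul, abs_of_nonneg (Int.natCast_nonneg _)] at h2
      push_cast at h2
      have h3 : (0 : ℤ) ≤ M * ∑ g ∈ B, (w g : ℤ) := by positivity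
      nlinarith
    rw [hxb, zero_mul, zero_add] at hsum
    intro g hg
    rcases Finset.mem_insert.1 hg with h | hg
    · rw [h]; exact hxb
    · exact hw x (fun g hg => hx g (Finset.mem_insert_of_mem hg)) hsum g hg

/-- The fibre count: the number of sums is at most the sum over strongly independent subsets. -/
theorem card_sums_leM (M q : ℕ) (B P : Finset G)
    (hP : ∀ y ∈ P, ∃ f : G → ℕ, (∀ b ∈ B, f b < q) ∧ ∑ b ∈ B, f b • b = y) :
    ∃ 𝒯 : Finset (Finset G), (∀ T ∈ 𝒯, T ⊆ B ∧ IndepM M T) ∧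
      P.card ≤ ∑ T ∈ 𝒯, (2 * M) ^ (B \ T).card * q ^ T.card := by
  classical
  obtain ⟨w, hw⟩ := exists_weightM M B
  have hex : ∀ y : G, ∃ f : G → ℕ, y ∈ P → ((∀ b ∈ B, f b < q) ∧ ∑ b ∈ B, f b • b = y ∧
      ∀ g : G → ℕ, (∀ b ∈ B, g b < q) → ∑ b ∈ B, g b • b = y →
        ∑ b ∈ B, f b * w b ≤ ∑ b ∈ B, g b * w b) := by
    intro y
    by_cases hy : y ∈ P
    · obtain ⟨f0, hf0, hf0y⟩ := hP y hy
      have hne : ∃ k, ∃ f : G → ℕ, (∀ b ∈ B, f b < q) ∧ ∑ b ∈ B, f b • b = y ∧
          ∑ b ∈ B, f b * w b = k := ⟨_, f0, hf0, hf0y, rfl⟩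
      obtain ⟨f, hf, hfy, hfk⟩ := Nat.find_spec hne
      refine ⟨f, fun _ => ⟨hf, hfy, fun g hg hgy => ?_⟩⟩
      rw [hfk]
      exact Nat.find_min' hne ⟨g, hg, hgy, rfl⟩
    · exact ⟨fun _ => 0, fun h => absurd h hy⟩
  choose F hF using hex
  -- the free part
  let T : G → Finset G := fun y => B.filter (fun b => M ≤ F y b ∧ F y b + M < q)
  let Q : Finset G → ∀ b : G, Finset ℕ := fun T b =>
    if b ∈ T then range q else range M ∪ Ico (q - M) q
  refine ⟨P.image T, ?_, ?_⟩
  · intro S hS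
    obtain ⟨y, hy, rfl⟩ := Finset.mem_image.1 hS
    obtain ⟨h1, h2, h3⟩ := hF y hy
    refine ⟨Finset.filter_subset _ _, ?_⟩
    -- one sign
    have key : ∀ x : G → ℤ, (∀ g ∈ T y, |x g| ≤ M) → ∑ g ∈ T y, x g • g = 0 →
        ∑ g ∈ T y, x g * (w g : ℤ) ≤ 0 := by
      intro x hx hsum
      by_contra hpos
      push Not at hpos
      let g : G → ℕ := fun b => if b ∈ T y then ((F y b : ℤ) - x b).toNat else F y b
      have hgT : ∀ b ∈ T y, (g b : ℤ) = (F y b : ℤ) - x b := by
        intro b hb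
        have hb' := (Finset.mem_filter.1 hb).2
        have hxb := abs_le.1 (hx b hb)
        have : (0 : ℤ) ≤ (F y b : ℤ) - x b := by
          have : (M : ℤ) ≤ F y b := by exact_mod_cast hb'.1
          linarith [hxb.2]
        simp only [g, if_pos hb]
        exact Int.toNat_of_nonneg this
      have hgN : ∀ b ∈ B, b ∉ T y → g b = F y b := by
        intro b _ hb
        simp only [g, if_neg hb]
      have hsplit : ∀ φ : G → ℕ → ℤ, ∑ b ∈ B, φ b (g b)
          = ∑ b ∈ T y, φ b (g b) + ∑ b ∈ B \ T y, φ b (F y b) := by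
        intro φ
        rw [← Finset.sum_sdiff (Finset.filter_subset _ _ : T y ⊆ B), add_comm]
        congr 1
        refine Finset.sum_congr rfl (fun b hb => ?_)
        rw [Finset.mem_sdiff] at hb
        rw [hgN b hb.1 hb.2]
      have hsplitF : ∀ φ : G → ℕ → ℤ, ∑ b ∈ B, φ b (F y b)
          = ∑ b ∈ T y, φ b (F y b) + ∑ b ∈ B \ T y, φ b (F y b) := by
        intro φ
        rw [← Finset.sum_sdiff (Finset.filter_subset _ _ : T y ⊆ B), add_comm]
      have hg1 : ∀ b ∈ B, g b < q := by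
        intro b hb
        by_cases hbT : b ∈ T y
        · have hb' := (Finset.mem_filter.1 hbT).2
          have hxb := abs_le.1 (hx b hbT)
          have h4 := hgT b hbT
          have h5 : ((F y b + M : ℕ) : ℤ) < q := by exact_mod_cast hb'.2
          push_cast at h5
          have : (g b : ℤ) < q := by linarith [hxb.1]
          exact_mod_cast this
        · rw [hgN b hb hbT]; exact h1 b hb
      have hg2 : ∑ b ∈ B, g b • b = y := by
        rw [← h2, ← Finset.sum_sdiff (Finset.filter_subset _ _ : T y ⊆ B),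
          ← Finset.sum_sdiff (Finset.filter_subset _ _ : T y ⊆ B)]
        congr 1
        · refine Finset.sum_congr rfl (fun b hb => ?_)
          rw [Finset.mem_sdiff] at hb
          rw [hgN b hb.1 hb.2]
        · have : ∀ b ∈ T y, g b • b = F y b • b - x b • b := by
            intro b hb
            rw [← natCast_zsmul b (F y b), ← natCast_zsmul b (g b), hgT b hb, sub_zsmul,
              sub_eq_add_neg]
          rw [Finset.sum_congr rfl this, Finset.sum_sub_distrib, hsum, sub_zero]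
      have hg3 := h3 g hg1 hg2
      have hg4 : ((∑ b ∈ B, g b * w b : ℕ) : ℤ)
          = ((∑ b ∈ B, F y b * w b : ℕ) : ℤ) - ∑ b ∈ T y, x b * (w b : ℤ) := by
        push_cast
        rw [hsplit (fun b n => (n : ℤ) * (w b : ℤ)), hsplitF (fun b n => (n : ℤ) * (w b : ℤ))]
        have : ∀ b ∈ T y, (g b : ℤ) * (w b : ℤ) = (F y b : ℤ) * (w b : ℤ) - x b * (w b : ℤ) := by
          intro b hb
          rw [hgT b hb, sub_mul]
        rw [Finset.sum_congr rfl this, Finset.sum_sub_distrib]
        ring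
      have hg5 : ((∑ b ∈ B, F y b * w b : ℕ) : ℤ) ≤ ((∑ b ∈ B, g b * w b : ℕ) : ℤ) := by
        exact_mod_cast hg3
      linarith
    intro x hx hsum g hg
    have hk1 := key x hx hsum
    have hk2 := key (fun g => - x g) (by simpa using hx) (by
      simp only [neg_smul, Finset.sum_neg_distrib, hsum, neg_zero])
    have hk3 : ∑ g ∈ T y, x g * (w g : ℤ) = 0 := by
      simp only [neg_mul, Finset.sum_neg_distrib] at hk2
      linarith
    have hTB : T y ⊆ B := Finset.filter_subset _ _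
    have hk4 : ∑ g ∈ B, (if g ∈ T y then x g else 0) * (w g : ℤ) = 0 := by
      rw [← Finset.sum_subset hTB (fun b _ hb => by rw [if_neg hb, zero_mul])]
      rw [← hk3]
      exact Finset.sum_congr rfl (fun b hb => by rw [if_pos hb])
    have hw' := hw (fun g => if g ∈ T y then x g else 0) (by
      intro b hb
      by_cases h : b ∈ T y
      · simpa [h] using hx b h
      · simp [h]) hk4 g (hTB hg)
    simpa [hg] using hw'
  · -- counting
    have hinj : P.card ≤ ((P.image T).biUnion (fun S => B.pi (Q S))).card := by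
      refine Finset.card_le_card_of_injOn (fun y => fun b _ => F y b) ?_ ?_
      · intro y hy
        have hy' : y ∈ P := hy
        simp only [Finset.coe_biUnion, Set.mem_iUnion, Finset.mem_coe]
        refine ⟨T y, Finset.mem_image_of_mem T hy', ?_⟩
        rw [Finset.mem_pi]
        intro b hb
        by_cases hbT : b ∈ T y
        · simp only [Q, if_pos hbT]
          exact Finset.mem_range.2 ((hF y hy').1 b hb)
        · simp only [Q, if_neg hbT]
          have h1 := (hF y hy').1 b hb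
          have h2 : ¬ (M ≤ F y b ∧ F y b + M < q) := fun h => hbT (Finset.mem_filter.2 ⟨hb, h⟩)
          rw [Finset.mem_union, Finset.mem_range, Finset.mem_Ico]
          omega
      · intro y hy y' hy' h
        have h1 := (hF y hy).2.1
        have h2 := (hF y' hy').2.1
        rw [← h1, ← h2]
        refine Finset.sum_congr rfl (fun b hb => ?_)
        have := congrFun (congrFun h b) hb
        simp only at this
        rw [this]
    refine hinj.trans (Finset.card_biUnion_le.trans (Finset.sum_le_sum (fun S hS => ?_)))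
    obtain ⟨y, hy, rfl⟩ := Finset.mem_image.1 hS
    rw [Finset.card_pi, ← Finset.prod_sdiff (Finset.filter_subset _ _ : T y ⊆ B)]
    refine Nat.mul_le_mul ?_ ?_
    · calc ∏ b ∈ B \ T y, (Q (T y) b).card ≤ ∏ _b ∈ B \ T y, 2 * M := by
            refine Finset.prod_le_prod' (fun b hb => ?_)
            simp only [Q, if_neg (Finset.mem_sdiff.1 hb).2]
            refine (Finset.card_union_le _ _).trans ?_
            rw [card_range, Nat.card_Ico]
            omega
        _ = (2 * M) ^ (B \ T y).card := by rw [Finset.prod_const]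
    · calc ∏ b ∈ T y, (Q (T y) b).card ≤ ∏ _b ∈ T y, q := by
            refine Finset.prod_le_prod' (fun b hb => ?_)
            simp only [Q, if_pos hb, card_range, le_refl]
        _ = q ^ (T y).card := by rw [Finset.prod_const]

/-- A good set contains a strongly independent subset with at least `(1 - 1/d)|B|` elements. -/
theorem good_large_strong {M m d p e s : ℕ} (hM : 2 * M ≤ 2 ^ m) (hd : 1 ≤ d)
    (hp : p = 2 * d * (m + 2) + 1) (he : 2 * d ≤ 2 ^ e) (hs : s = p + e + 1) (B : Finset G)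
    (hB : Good (2 ^ p) s B) :
    ∃ D, D ⊆ B ∧ IndepM M D ∧ (d - 1) * B.card ≤ d * D.card := by
  rcases B.eq_empty_or_nonempty with rfl | hne
  · exact ⟨∅, by simp, by intro x _ _ g hg; simp at hg, by simp⟩
  by_contra hcon
  push Not at hcon
  have he1 : 1 ≤ e := by
    rcases Nat.eq_zero_or_pos e with rfl | h
    · simp at he; omega
    · exact h
  have hsup := support_bound he1 hs B hB hne
  set n := B.card with hn
  set N := (law (2 ^ p) B).support.card with hN
  have hn1 : 1 ≤ n := Finset.card_pos.2 hne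
  have hq1 : 1 < 2 ^ p := Nat.one_lt_two_pow (by omega)
  obtain ⟨𝒯, h𝒯, hle⟩ := card_sums_leM M (2 ^ p) B (law (2 ^ p) B).support
    (mem_support_law B)
  have hM' : ∀ T ∈ 𝒯, d * T.card < (d - 1) * n := by
    intro T hT
    obtain ⟨h1, h2⟩ := h𝒯 T hT
    exact hcon T h1 h2
  have hNpos : 0 < N := by
    rcases Nat.eq_zero_or_pos N with h | h
    · rw [h, mul_zero] at hsup
      have : 0 < (2 ^ p) ^ n := by positivity
      omega
    · exact h
  have h𝒯ne : 𝒯.Nonempty := by
    rw [Finset.nonempty_iff_ne_empty]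
    intro h0
    rw [h0, Finset.sum_empty] at hle
    exact absurd hNpos (Nat.not_lt.2 hle)
  obtain ⟨T₀, hT₀, hmax⟩ := Finset.exists_max_image 𝒯 (fun T => T.card) h𝒯ne
  set m₀ := T₀.card with hMdef
  have hMlt : d * m₀ < (d - 1) * n := hM' T₀ hT₀
  have h𝒯card : 𝒯.card ≤ 2 ^ n := by
    rw [hn, ← Finset.card_powerset]
    exact Finset.card_le_card (fun T hT => Finset.mem_powerset.2 (h𝒯 T hT).1)
  have hNle : N ≤ 2 ^ n * ((2 ^ m) ^ n * (2 ^ p) ^ m₀) := by
    calc N ≤ ∑ T ∈ 𝒯, (2 * M) ^ (B \ T).card * (2 ^ p) ^ T.card := hle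
      _ ≤ ∑ T ∈ 𝒯, (2 ^ m) ^ n * (2 ^ p) ^ m₀ := Finset.sum_le_sum (fun T hT => by
          refine Nat.mul_le_mul ?_ (Nat.pow_le_pow_right (by omega) (hmax T hT))
          refine (Nat.pow_le_pow_left hM _).trans (Nat.pow_le_pow_right (by positivity) ?_)
          exact Finset.card_le_card Finset.sdiff_subset)
      _ = 𝒯.card * ((2 ^ m) ^ n * (2 ^ p) ^ m₀) := by rw [Finset.sum_const, smul_eq_mul]
      _ ≤ _ := Nat.mul_le_mul_right _ h𝒯card
  have hfin : (2 ^ p) ^ n
      ≤ 2 ^ (n + 1) * (2 ^ p) ^ (n / 2 ^ e) * (2 ^ n * ((2 ^ m) ^ n * (2 ^ p) ^ m₀)) :=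
    hsup.trans (Nat.mul_le_mul_left _ hNle)
  have hexp : p * n ≤ (n + 1) + p * (n / 2 ^ e) + (n + (m * n + p * m₀)) := by
    have h1 : 2 ^ (n + 1) * (2 ^ p) ^ (n / 2 ^ e) * (2 ^ n * ((2 ^ m) ^ n * (2 ^ p) ^ m₀))
        = 2 ^ ((n + 1) + p * (n / 2 ^ e) + (n + (m * n + p * m₀))) := by
      rw [← pow_mul, ← pow_mul, ← pow_mul, ← pow_add, ← pow_add, ← pow_add, ← pow_add]
    rw [h1, ← pow_mul] at hfin
    exact (Nat.pow_le_pow_iff_right (by norm_num)).1 hfin
  set μ := n / 2 ^ e with hμ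
  have hμ2 : 2 * d * μ ≤ n := by
    calc 2 * d * μ ≤ 2 ^ e * μ := Nat.mul_le_mul_right _ he
      _ ≤ n := Nat.mul_div_le n (2 ^ e)
  obtain ⟨c, rfl⟩ : ∃ c, d = c + 1 := ⟨d - 1, by omega⟩
  simp only [Nat.add_sub_cancel] at hMlt
  have h2 : (c + 1) * m₀ + 1 + n ≤ (c + 1) * n := by nlinarith
  have h3 : 2 * (c + 1) * (p * n)
      ≤ 2 * (c + 1) * ((n + 1) + p * μ + (n + (m * n + p * m₀))) := Nat.mul_le_mul_left _ hexp
  have h4 : 2 * p * ((c + 1) * m₀ + 1 + n) ≤ 2 * p * ((c + 1) * n) := Nat.mul_le_mul_left _ h2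
  have h5 : p * (2 * (c + 1) * μ) ≤ p * n := Nat.mul_le_mul_left _ hμ2
  have h6 : 2 * p + p * n ≤ 2 * (c + 1) * ((m + 2) * n + 1) := by linarith
  have h8 : p * n = 2 * (c + 1) * (m + 2) * n + n := by rw [hp]; ring
  have h9 : 2 * p = 4 * ((c + 1) * m) + 8 * (c + 1) + 2 := by rw [hp]; ring
  have h10 : 2 * (c + 1) * ((m + 2) * n + 1) = 2 * (c + 1) * (m + 2) * n + 2 * (c + 1) := by ring
  rw [h8, h9, h10] at h6
  omega

end Pool.Agent.Helper80.SU
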