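import Mathlib
import Pool.Agent.Helper80.SU.Final
import Pool.Agent.Helper80.SU.Strong

/-!
Assembly, strong form: a set in a torsion-free group all of whose finite subsets contain
proportionally large dissociated subsets is a finite union of sets whose finite subsets `B` contain
sets `D` of size at least `(1 - 1/d)|B|` without nontrivial relations with coefficients of
absolute value at most `M`.
-/

set_option autoImplicit false

namespace Pool.Agent.Helper80.SU

open Finset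

set_option linter.unusedSectionVars false

variable {G : Type*} [AddCommGroup G] [DecidableEq G]

/-- The number of classes. -/
def numCls (C d M : ℕ) : ℕ :=
  2 ^ (8 * d * (M + 2) + 2 * d + 13) * (2 * d * (M + 2) + 1) ^ 2 * C ^ 2

/-- The theorem in a torsion-free group, strong form. -/
theorem main_torsionFree_strong (hG : ∀ (j : ℕ) (x : G), j ≠ 0 → j • x = 0 → x = 0)
    (W : Set G) (C d M : ℕ) (hC : 1 ≤ C) (hd : 1 ≤ d)
    (hW : ∀ B : Finset G, (B : Set G) ⊆ W →
      ∃ D : Finset G, D ⊆ B ∧ Diss D ∧ B.card ≤ C * D.card) :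
    ∃ f : G → Fin (numCls C d M),
      ∀ B : Finset G, (B : Set G) ⊆ W → (∀ x ∈ B, ∀ y ∈ B, f x = f y) →
        ∃ D : Finset G, D ⊆ B ∧ IndepM M D ∧ (d - 1) * B.card ≤ d * D.card := by
  have h2 : ∀ n : ℕ, 2 * n ≤ 2 ^ n := by
    intro n
    induction n with
    | zero => simp
    | succ n ih =>
      rcases Nat.eq_zero_or_pos n with rfl | h
      · norm_num
      · have : 2 ≤ 2 ^ n := by
          calc 2 = 2 ^ 1 := rfl
            _ ≤ 2 ^ n := Nat.pow_le_pow_right (by norm_num) h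
        rw [pow_succ]
        omega
  obtain ⟨f, hf⟩ := Pool.Agent.S12.compactness (numCls C d M) W
    (fun B => Good (2 ^ (2 * d * (M + 2) + 1)) (2 * d * (M + 2) + 1 + d + 1) B) (by
      intro V hV
      refine finite_colouring hG C (2 * d * (M + 2) + 1) (2 * d * (M + 2) + 1 + d + 1) _ hC
        (by omega) ?_ V
        (fun B hB => hW B (fun x hx => hV (Finset.mem_coe.mpr (hB (Finset.mem_coe.mp hx)))))
      refine le_of_eq ?_
      unfold numCls
      ring)
  refine ⟨f, fun B hB hmono => ?_⟩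
  exact good_large_strong (h2 M) hd rfl (h2 d) rfl B (hf B hB hmono)

/-- The theorem for sets of natural numbers, strong form. -/
theorem main_nat_strong (A : Set ℕ) (c : ℝ) (hc : 0 < c)
    (hA : ∀ B : Finset ℕ, (↑B : Set ℕ) ⊆ A →
      ∃ D : Finset ℕ, D ⊆ B ∧
        (∀ X Y : Finset ℕ, X ⊆ D → Y ⊆ D → X ≠ Y → X.sum id ≠ Y.sum id) ∧
        c * (B.card : ℝ) ≤ (D.card : ℝ)) (d M : ℕ) (hd : 1 ≤ d) :
    ∃ F : Fin (numCls ⌈1 / c⌉₊ d M) → Set ℕ,
      (∀ i, ∀ B : Finset ℕ, (↑B : Set ℕ) ⊆ F i →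
        ∃ D : Finset ℕ, D ⊆ B ∧
          (∀ x : ℕ → ℤ, (∀ n ∈ D, |x n| ≤ M) → ∑ n ∈ D, x n * n = 0 → ∀ n ∈ D, x n = 0) ∧
          (1 - 1 / (d : ℝ)) * (B.card : ℝ) ≤ (D.card : ℝ)) ∧
      A = ⋃ i, F i := by
  classical
  set C : ℕ := ⌈1 / c⌉₊ with hCdef
  have hC1 : 1 ≤ C := Nat.one_le_iff_ne_zero.mpr (by
    have : 0 < C := Nat.ceil_pos.mpr (by positivity)
    omega)
  have hCc : 1 ≤ (C : ℝ) * c := by
    have h := Nat.le_ceil (1 / c)
    rw [← hCdef, div_le_iff₀ hc] at h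
    exact h
  have hcast : Function.Injective (fun n : ℕ => (n : ℤ)) := fun a b h => Int.ofNat.inj h
  -- transfer of dissociated sets
  have hto : ∀ D : Finset ℕ,
      (∀ X Y : Finset ℕ, X ⊆ D → Y ⊆ D → X ≠ Y → X.sum id ≠ Y.sum id) →
      Diss (D.image (fun n : ℕ => (n : ℤ))) := by
    intro D hD X Y hX hY hXY
    obtain ⟨X', hX', rfl⟩ := Finset.subset_image_iff.mp hX
    obtain ⟨Y', hY', rfl⟩ := Finset.subset_image_iff.mp hY
    rw [Finset.sum_image (fun a _ b _ h => hcast h),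
      Finset.sum_image (fun a _ b _ h => hcast h)] at hXY
    by_contra hne
    have hne' : X' ≠ Y' := fun h => hne (by rw [h])
    refine hD X' Y' (by exact_mod_cast hX') (by exact_mod_cast hY') hne' ?_
    have : ((∑ x ∈ X', x : ℕ) : ℤ) = ((∑ y ∈ Y', y : ℕ) : ℤ) := by
      push_cast
      exact hXY
    exact_mod_cast this
  have hfrom : ∀ D : Finset ℕ, IndepM M (D.image (fun n : ℕ => (n : ℤ))) →
      (∀ x : ℕ → ℤ, (∀ n ∈ D, |x n| ≤ M) → ∑ n ∈ D, x n * n = 0 → ∀ n ∈ D, x n = 0) := by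
    intro D hD x hx hsum n hn
    have h1 := hD (fun z => x z.toNat) (by
      intro g hg
      obtain ⟨k, hk, rfl⟩ := Finset.mem_image.mp hg
      exact hx k hk) (by
      rw [Finset.sum_image (fun a _ b _ h => hcast h)]
      rw [← hsum]
      refine Finset.sum_congr rfl (fun k hk => ?_)
      simp) (n : ℤ) (Finset.mem_image_of_mem _ hn)
    simpa using h1
  let W : Set ℤ := (fun n : ℕ => (n : ℤ)) '' A
  have hpull : ∀ B : Finset ℤ, (B : Set ℤ) ⊆ W →
      ∃ B' : Finset ℕ, (B' : Set ℕ) ⊆ A ∧ B'.image (fun n : ℕ => (n : ℤ)) = B := by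
    intro B hB
    obtain ⟨B', hB', h⟩ := Finset.subset_set_image_iff.mp hB
    exact ⟨B', hB', h⟩
  have hW : ∀ B : Finset ℤ, (B : Set ℤ) ⊆ W →
      ∃ D : Finset ℤ, D ⊆ B ∧ Diss D ∧ B.card ≤ C * D.card := by
    intro B hB
    obtain ⟨B', hB', rfl⟩ := hpull B hB
    obtain ⟨D, hDB, hD, hcard⟩ := hA B' hB'
    refine ⟨D.image (fun n : ℕ => (n : ℤ)), Finset.image_subset_image hDB, hto D hD, ?_⟩
    rw [Finset.card_image_of_injective _ hcast, Finset.card_image_of_injective _ hcast]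
    have h1 : (B'.card : ℝ) ≤ (C : ℝ) * (D.card : ℝ) := by
      calc (B'.card : ℝ) = 1 * (B'.card : ℝ) := by ring
        _ ≤ ((C : ℝ) * c) * (B'.card : ℝ) := by
            exact mul_le_mul_of_nonneg_right hCc (by positivity)
        _ = (C : ℝ) * (c * (B'.card : ℝ)) := by ring
        _ ≤ (C : ℝ) * (D.card : ℝ) := mul_le_mul_of_nonneg_left hcard (by positivity)
    exact_mod_cast h1
  obtain ⟨f, hf⟩ := main_torsionFree_strong (G := ℤ) (by
    intro j x hj hx
    rw [nsmul_eq_mul, mul_eq_zero] at hx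
    rcases hx with h | h
    · exact absurd (by exact_mod_cast h) hj
    · exact h) W C d M hC1 hd hW
  refine ⟨fun i => {n | n ∈ A ∧ f (n : ℤ) = i}, ?_, ?_⟩
  · intro i B hB
    obtain ⟨D, hDB, hD, hcard⟩ := hf (B.image (fun n : ℕ => (n : ℤ))) (by
      intro x hx
      obtain ⟨n, hn, rfl⟩ := Finset.mem_image.mp (Finset.mem_coe.mp hx)
      exact ⟨n, (hB (Finset.mem_coe.mpr hn)).1, rfl⟩) (by
      intro x hx y hy
      obtain ⟨n, hn, rfl⟩ := Finset.mem_image.mp hx
      obtain ⟨m, hm, rfl⟩ := Finset.mem_image.mp hy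
      rw [(hB (Finset.mem_coe.mpr hn)).2, (hB (Finset.mem_coe.mpr hm)).2])
    obtain ⟨D', hD', rfl⟩ := Finset.subset_image_iff.mp hDB
    refine ⟨D', by exact_mod_cast hD', hfrom D' hD, ?_⟩
    rw [Finset.card_image_of_injective _ hcast, Finset.card_image_of_injective _ hcast] at hcard
    have hd0 : (0 : ℝ) < d := by exact_mod_cast hd
    have h1 : ((d : ℝ) - 1) * (B.card : ℝ) ≤ (d : ℝ) * (D'.card : ℝ) := by
      have h2 : (((d - 1) * B.card : ℕ) : ℝ) ≤ ((d * D'.card : ℕ) : ℝ) := by exact_mod_cast hcard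
      push_cast [Nat.cast_sub hd] at h2
      exact h2
    have h3 : (1 - 1 / (d : ℝ)) * (B.card : ℝ) = (((d : ℝ) - 1) * (B.card : ℝ)) / d := by
      field_simp
    rw [h3, div_le_iff₀ hd0]
    linarith
  · ext n
    simp only [Set.mem_iUnion, Set.mem_ofPred_eq]
    constructor
    · intro hn
      exact ⟨f (n : ℤ), hn, rfl⟩
    · rintro ⟨i, hn, -⟩
      exact hn

end Pool.Agent.Helper80.SU
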